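import Pool.Agent.H88.B2.Targets
import Pool.Agent.H82.LB.Targets
import Pool.Agent.H82.FP.Targets2

/-!
Local smoothing in dimension `3` below `p = 10/3` (MP_ee74d2_an), the two-ends case: the
inequalities for the data of `B2q` (structure `Dat`), the final linear programmes and the
assembly. Page: `/team-store/H88_B2.md`.
-/

set_option autoImplicit false

namespace Pool.Agent.H88.B2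

open MeasureTheory Set
open Pool.Agent.H83.G
open Pool.Agent.H22.G4 (nv Ind)
open scoped ENNReal NNReal RealInnerProductSpace

/-- exponent of the losses -/
noncomputable def la : ℝ := 100000

/-- HL: if the planks near the points are not low at width `w`, refined decoupling for the
planks themselves -/
def T_HL : Prop := ∀ δ : ℝ, 0 < δ → δ ≤ 1 / 100 → ∃ N₀ : ℕ, ∀ N : ℕ, N₀ ≤ N → ∃ C : ℝ, 1 ≤ C ∧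
  ∀ (R w M₁ M : ℝ) (P : Finset (Pk 2)) (X : Finset (Z 2)), 1 ≤ R → C ≤ R ^ δ →
  R ^ (lo 2 * δ) ≤ w → w ≤ R ^ (1 / 4 : ℝ) → R ^ (-(lo 2 * δ)) ≤ M₁ → M₁ ≤ R ^ (10 : ℝ) →
  0 < M → (∀ W ∈ P, W.1 ∈ Ks 2 (sR R) ∧ ‖ctr (sR R) W.1‖ ≤ 3) →
  (P.card : ℝ) ≤ R ^ (10 : ℝ) → Sep X → (∀ z ∈ X, M₁ ≤ Nd N R δ (R ^ δ) P z) →
  (∀ z ∈ X, ∀ w', R ^ δ ≤ w' → w' ≤ w → Nd N R δ w' P z ≤ R ^ (lo 2 * δ) * w' * M) →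
  (∀ z ∈ X, C * R ^ (lo 2 * δ) * Nd N R δ w P z < M₁ * w) →
  (X.card : ℝ) * M₁ ^ 4 ≤ C * R ^ (lo 2 * (8 * δ)) * w ^ 4 * M * P.card * R ^ 2

/-! ### data -/

/-- the ball of the point `z` -/
noncomputable def Bz (R ε₀ : ℝ) (z : Z 2) : Zi 2 := bl R (R ^ (1 - ε₀)) (cb (Real.sqrt R) z)

/-- the planks of the class in the ball of `z` -/
noncomputable def Sz (R δ ε₀ : ℝ) (l k : ℕ) (QQ : Finset (Zi 2)) (S : Finset (Pk 2)) (z : Z 2) :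
    Finset (Pk 2) :=
  SB QQ R (R ^ (1 - ε₀)) δ l k S (Bz R ε₀ z)

open scoped Classical in
/-- the number of tubes of the class through the cube of `z` -/
noncomputable def Mt (R δ ε₀ : ℝ) (l k : ℕ) (QQ : Finset (Zi 2)) (S : Finset (Pk 2)) (z : Z 2) :
    ℕ :=
  ((S.image (tb R)).filter (fun T => Inc R δ T (cb (Real.sqrt R) z) ∧
    Sh QQ R (R ^ (1 - ε₀)) δ l k T (Bz R ε₀ z))).card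

open scoped Classical in
/-- the data of `B2q`, except `ν` and the lower bound of `2 ^ k` -/
structure Dat (L N : ℕ) (β : E 2 → ℂ) (Ψ : Z 2 → ℂ) (ψ : Z 2 → ℝ)
    (δ b₀ B ε₀ κ R P A H En : ℝ) (G : Fin 4 → Z 2 → ℂ) (c : Fin 4 → E 2) (z₀ : Z 2)
    (S : Fin 4 → Finset (Pk 2)) (a b : ℝ) (l k : ℕ) (QQ : Finset (Zi 2)) (X : Finset (Z 2)) :
    Prop where
  pu : IsPU β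
  psi : IsPsi Ψ ψ
  L0 : 10 ≤ L
  N0 : 10 ≤ N
  d0 : 0 < δ
  d1 : δ ≤ 1 / 10000
  b0 : 0 < b₀
  B1 : 1 ≤ B
  e0 : 0 < ε₀
  e1 : ε₀ ≤ 1 / 1000
  k0 : 0 ≤ κ
  k1 : κ ≤ 3 / 8
  R1 : 1 ≤ R
  P1 : 1 ≤ P
  PR : P ≤ R ^ ε₀
  A0 : 0 < A
  H0 : 0 < H
  HA : b₀ * A ≤ R ^ δ * H
  En0 : 0 < En
  cls : ∀ i, Cls L κ R A (G i)
  c12 : ∀ i, ‖c i‖ ≤ 12
  ind : Ind P⁻¹ c
  sep : Sep X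
  ball : ∀ z ∈ X, ‖z - z₀‖ ≤ R
  pk : ∀ i, ∀ W ∈ S i, W.1 ∈ Ks 2 (sR R) ∧ (∃ z, ‖z - z₀‖ ≤ R ∧ near R δ W z) ∧
    ‖ctr (sR R) W.1‖ ≤ 3 ∧ ‖ctr (sR R) W.1 - c i‖ ≤ 1 / (400 * P) ∧
    a ≤ al N β R δ (G i) W ∧ al N β R δ (G i) W ≤ 2 * a
  card : ∀ i, ((S i).card : ℝ) ≤ B * R ^ (8 : ℝ)
  a0 : 0 < a
  b1 : 1 ≤ b
  tube : ∀ i, ∀ W ∈ S i, b ≤ (((S i).filter (fun W' => tb R W' = tb R W)).card : ℝ) ∧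
    (((S i).filter (fun W' => tb R W' = tb R W)).card : ℝ) ≤ 2 * b
  en : ∀ i, ∑ W ∈ S i, al N β R δ (G i) W ^ 2 * R ^ 2 ≤ En
  En1 : En ≤ B * R ^ (lo 2 * δ) * (A ^ 2 * R ^ (4 : ℝ))
  cube : ∀ z ∈ X, cb (Real.sqrt R) z ∈ QQ
  cubes : ∀ q ∈ QQ, ‖Real.sqrt R • zc q - z₀‖ ≤ 4 * R
  FH : ∀ z ∈ X, ∀ i, H ≤ ‖∑ W ∈ Sz R δ ε₀ l k QQ (S i) z, Fp β ψ R δ (G i) W z‖

/-- DA1: elementary consequences -/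
def T_DA1 : Prop := ∀ (L : ℕ) (β : E 2 → ℂ) (Ψ : Z 2 → ℂ) (ψ : Z 2 → ℝ) (δ b₀ B ε₀ : ℝ),
  ∃ N₀ : ℕ, ∀ N : ℕ, N₀ ≤ N → ∃ C : ℝ, 1 ≤ C ∧ ∀ (κ R P A H En : ℝ) (G : Fin 4 → Z 2 → ℂ)
  (c : Fin 4 → E 2) (z₀ : Z 2) (S : Fin 4 → Finset (Pk 2)) (a b : ℝ) (l k : ℕ)
  (QQ : Finset (Zi 2)) (X : Finset (Z 2)), C ≤ R ^ δ →
  Dat L N β Ψ ψ δ b₀ B ε₀ κ R P A H En G c z₀ S a b l k QQ X → X.Nonempty →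
  a ≤ C * A ∧ (∀ i, ‖c i‖ ≤ 7 / 5) ∧
  (∀ W : Fin 4 → Pk 2, (∀ i, W i ∈ S i) → Ind (2 * P)⁻¹ fun i => ctr (sR R) (W i).1) ∧
  (∀ i j, i ≠ j → ∀ W ∈ S i, ∀ W' ∈ S j,
    (8 * P)⁻¹ ≤ ‖ctr (sR R) W'.1 - ctr (sR R) W.1‖) ∧
  (∀ z ∈ X, ∀ i, 1 ≤ Mt R δ ε₀ l k QQ (S i) z ∧
    R ^ (-(10 * δ)) ≤ Nd N R δ (R ^ δ) (Sz R δ ε₀ l k QQ (S i) z) z ∧
    ∀ w, Nd N R δ w (Sz R δ ε₀ l k QQ (S i) z) z ≤ B * R ^ (8 : ℝ)) ∧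
  ((X.image (Bz R ε₀)).card : ℝ) ≤ C * R ^ (4 * ε₀)

/-- DRD: refined decoupling -/
def T_DRD : Prop := ∀ (L : ℕ) (β : E 2 → ℂ) (Ψ : Z 2 → ℂ) (ψ : Z 2 → ℝ) (δ b₀ B ε₀ : ℝ),
  ∃ N₀ : ℕ, ∀ N : ℕ, N₀ ≤ N → ∃ C : ℝ, 1 ≤ C ∧ ∀ (κ R P A H En : ℝ) (G : Fin 4 → Z 2 → ℂ)
  (c : Fin 4 → E 2) (z₀ : Z 2) (S : Fin 4 → Finset (Pk 2)) (a b : ℝ) (l k : ℕ)
  (QQ : Finset (Zi 2)) (X : Finset (Z 2)) (M₁ : ℝ) (i : Fin 4), C ≤ R ^ δ →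
  Dat L N β Ψ ψ δ b₀ B ε₀ κ R P A H En G c z₀ S a b l k QQ X →
  R ^ (-(20 * δ)) ≤ M₁ → (∀ z ∈ X, Nd N R δ (R ^ δ) (Sz R δ ε₀ l k QQ (S i) z) z ≤ 2 * M₁) →
  (X.card : ℝ) * H ^ 4 ≤ C * R ^ (la * (δ + ε₀)) * M₁ * a ^ 4 * (S i).card * R ^ 2

/-- DML: four-linear restriction -/
def T_DML : Prop := ∀ ε' : ℝ, 0 < ε' → ∃ E₁ : ℝ, 0 ≤ E₁ ∧ ∀ (L : ℕ) (β : E 2 → ℂ)
  (Ψ : Z 2 → ℂ) (ψ : Z 2 → ℝ) (δ b₀ B ε₀ : ℝ), ∃ N₀ : ℕ, ∀ N : ℕ, N₀ ≤ N → ∃ C : ℝ, 1 ≤ C ∧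
  ∀ (κ R P A H En : ℝ) (G : Fin 4 → Z 2 → ℂ)
  (c : Fin 4 → E 2) (z₀ : Z 2) (S : Fin 4 → Finset (Pk 2)) (a b : ℝ) (l k : ℕ)
  (QQ : Finset (Zi 2)) (X : Finset (Z 2)), C ≤ R ^ δ →
  Dat L N β Ψ ψ δ b₀ B ε₀ κ R P A H En G c z₀ S a b l k QQ X →
  (X.card : ℝ) * H ^ (8 / 3 : ℝ) ≤ C * R ^ (ε' + E₁ * ε₀ + la * (δ + ε₀)) *
    ∏ i, (a ^ 2 * (S i).card * R) ^ (1 / 3 : ℝ)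

open scoped Classical in
/-- DLW: Loomis-Whitney at width `w`, with representatives at scale `w` in every ball -/
def T_DLW : Prop := ∀ (L : ℕ) (β : E 2 → ℂ) (Ψ : Z 2 → ℂ) (ψ : Z 2 → ℝ) (δ b₀ B ε₀ : ℝ),
  ∃ N₀ : ℕ, ∀ N : ℕ, N₀ ≤ N → ∃ C : ℝ, 1 ≤ C ∧ ∀ (κ R P A H En : ℝ) (G : Fin 4 → Z 2 → ℂ)
  (c : Fin 4 → E 2) (z₀ : Z 2) (S : Fin 4 → Finset (Pk 2)) (a b : ℝ) (l k : ℕ)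
  (QQ : Finset (Zi 2)) (X : Finset (Z 2)) (w : ℝ) (M D : Fin 4 → ℝ), C ≤ R ^ δ →
  Dat L N β Ψ ψ δ b₀ B ε₀ κ R P A H En G c z₀ S a b l k QQ X → R ^ δ ≤ w → w ≤ Real.sqrt R →
  (∀ i, 0 < M i ∧ R ^ (-(1 / 2) : ℝ) ≤ w * D i) →
  (∀ z ∈ X, ∀ i, (Mt R δ ε₀ l k QQ (S i) z : ℝ) ≤ 2 * M i ∧
    w * D i ≤ Nd N R δ w (Sz R δ ε₀ l k QQ (S i) z) z) →
  ∃ Q : Zi 2 → Finset (Z 2), (∀ j, Q j ⊆ X ∧ Sepw w (Q j) ∧ (∀ x ∈ Q j, Bz R ε₀ x = j) ∧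
    ∀ z ∈ X, Bz R ε₀ z = j → ∃ x ∈ Q j, ‖z - x‖ ≤ w) ∧
  (∑ j ∈ X.image (Bz R ε₀), ((Q j).card : ℝ)) * ∏ i, (w * D i) ≤
    C * R ^ (la * (δ + ε₀)) * (X.image (cb (Real.sqrt R))).card * ∏ i, (M i * b)

open scoped Classical in
/-- DL2: energy at width `w` -/
def T_DL2 : Prop := ∀ (L : ℕ) (β : E 2 → ℂ) (Ψ : Z 2 → ℂ) (ψ : Z 2 → ℝ) (δ b₀ B ε₀ : ℝ),
  ∃ N₀ : ℕ, ∀ N : ℕ, N₀ ≤ N → ∃ C : ℝ, 1 ≤ C ∧ ∀ (κ R P A H En : ℝ) (G : Fin 4 → Z 2 → ℂ)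
  (c : Fin 4 → E 2) (z₀ : Z 2) (S : Fin 4 → Finset (Pk 2)) (a b : ℝ) (l k : ℕ)
  (QQ : Finset (Zi 2)) (X : Finset (Z 2)) (w D₁ D₂ D₃ : ℝ) (i j : Fin 4)
  (Q : Zi 2 → Finset (Z 2)), C ≤ R ^ δ →
  Dat L N β Ψ ψ δ b₀ B ε₀ κ R P A H En G c z₀ S a b l k QQ X → i ≠ j → R ^ (1 / 16 : ℝ) ≤ w →
  w ^ 2 ≤ Real.sqrt R → R ^ (-(10 : ℝ)) ≤ D₁ → R ^ (-(10 : ℝ)) ≤ D₂ → 0 < D₃ →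
  D₃ ≤ R ^ (10 : ℝ) →
  (∀ z ∈ X, Nd N R δ w (Sz R δ ε₀ l k QQ (S i) z) z ≤ w * D₁ ∧
    w * D₂ ≤ Nd N R δ w (Sz R δ ε₀ l k QQ (S j) z) z ∧
    Nd N R δ (w ^ 2) (Sz R δ ε₀ l k QQ (S j) z) z ≤ w ^ 2 * D₃) →
  (∀ j, Q j ⊆ X ∧ Sepw w (Q j) ∧ (∀ x ∈ Q j, Bz R ε₀ x = j) ∧
    ∀ z ∈ X, Bz R ε₀ z = j → ∃ x ∈ Q j, ‖z - x‖ ≤ w) →
  ((X.card : ℝ) * H ^ 2) ^ 2 ≤ C * R ^ (la * (δ + ε₀)) * (D₃ / D₂) * a ^ 4 * (S i).card * R ^ 2 *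
    ((∑ j ∈ X.image (Bz R ε₀), ((Q j).card : ℝ)) * w ^ 4 * D₁)

/-- DHL: the points which are not low at width `R^{1/8}` -/
def T_DHL : Prop := ∀ (L : ℕ) (β : E 2 → ℂ) (Ψ : Z 2 → ℂ) (ψ : Z 2 → ℝ) (δ b₀ B ε₀ : ℝ),
  ∃ N₀ : ℕ, ∀ N : ℕ, N₀ ≤ N → ∃ C : ℝ, 1 ≤ C ∧ ∀ (κ R P A H En : ℝ) (G : Fin 4 → Z 2 → ℂ)
  (c : Fin 4 → E 2) (z₀ : Z 2) (S : Fin 4 → Finset (Pk 2)) (a b : ℝ) (l k : ℕ)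
  (QQ : Finset (Zi 2)) (X : Finset (Z 2)) (M₁ M : ℝ) (i : Fin 4), C ≤ R ^ δ →
  Dat L N β Ψ ψ δ b₀ B ε₀ κ R P A H En G c z₀ S a b l k QQ X →
  R ^ (-(20 * δ)) ≤ M₁ → 1 ≤ 2 * M →
  (∀ z ∈ X, M₁ ≤ Nd N R δ (R ^ δ) (Sz R δ ε₀ l k QQ (S i) z) z ∧
    (Mt R δ ε₀ l k QQ (S i) z : ℝ) ≤ 2 * M ∧
    C * R ^ (la * δ) * Nd N R δ (R ^ (1 / 8 : ℝ)) (Sz R δ ε₀ l k QQ (S i) z) z <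
      M₁ * R ^ (1 / 8 : ℝ)) →
  (X.card : ℝ) * M₁ ^ 4 ≤ C * R ^ (la * (δ + ε₀)) * R ^ (1 / 2 : ℝ) * M * (S i).card * R ^ 2

/-- DMU: upper bounds of the weighted numbers -/
def T_DMU : Prop := ∀ (L : ℕ) (β : E 2 → ℂ) (Ψ : Z 2 → ℂ) (ψ : Z 2 → ℝ) (δ b₀ B ε₀ : ℝ),
  ∃ N₀ : ℕ, ∀ N : ℕ, N₀ ≤ N → ∃ C : ℝ, 1 ≤ C ∧ ∀ (κ R P A H En : ℝ) (G : Fin 4 → Z 2 → ℂ)
  (c : Fin 4 → E 2) (z₀ : Z 2) (S : Fin 4 → Finset (Pk 2)) (a b : ℝ) (l k : ℕ)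
  (QQ : Finset (Zi 2)) (X : Finset (Z 2)) (w M : ℝ) (i : Fin 4), C ≤ R ^ δ →
  Dat L N β Ψ ψ δ b₀ B ε₀ κ R P A H En G c z₀ S a b l k QQ X → R ^ δ ≤ w → w ≤ Real.sqrt R →
  1 ≤ 2 * M → (∀ z ∈ X, (Mt R δ ε₀ l k QQ (S i) z : ℝ) ≤ 2 * M) →
  ∀ z ∈ X, Nd N R δ w (Sz R δ ε₀ l k QQ (S i) z) z ≤ C * w * M ∧
    Nd N R δ w (Sz R δ ε₀ l k QQ (S i) z) z ≤ C * M * b

open scoped Classical in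
/-- DKS: four-stars; `q` is the number of cubes which meet `X` -/
def T_DKS : Prop := ∃ E₁ : ℝ, 0 ≤ E₁ ∧
  ∀ (L : ℕ) (β : E 2 → ℂ) (Ψ : Z 2 → ℂ) (ψ : Z 2 → ℝ) (δ b₀ B ε₀ : ℝ), 2 * δ + ε₀ ≤ 1 / 2 →
  ∃ N₀ : ℕ, ∀ N : ℕ, N₀ ≤ N → ∃ C : ℝ, 1 ≤ C ∧ ∀ (κ R P A H En : ℝ) (G : Fin 4 → Z 2 → ℂ)
  (c : Fin 4 → E 2) (z₀ : Z 2) (S : Fin 4 → Finset (Pk 2)) (a b : ℝ) (l k : ℕ)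
  (QQ : Finset (Zi 2)) (X : Finset (Z 2)) (M : Fin 4 → ℝ) (ν D : ℝ), C ≤ R ^ δ →
  Dat L N β Ψ ψ δ b₀ B ε₀ κ R P A H En G c z₀ S a b l k QQ X → C ≤ (2 : ℝ) ^ k →
  (∀ i, 0 < M i) → (∀ z ∈ X, ∀ i, M i ≤ (Mt R δ ε₀ l k QQ (S i) z : ℝ)) → X.Nonempty →
  0 < ν → 1 ≤ D → ν * QQ.card ≤ D * X.card →
  (∀ q, ((X.filter (fun z => cb (Real.sqrt R) z = q)).card : ℝ) ≤ 2 * ν) →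
  ∃ y : ℝ, 1 ≤ y ∧ (∀ i, ((X.image (cb (Real.sqrt R))).card : ℝ) * M i ≤
    4 * y * ((S i).image (tb R)).card) ∧
  ∏ i, (M i * y) ≤ C * R ^ (E₁ * (δ + ε₀)) * D ^ 4 *
    ((X.image (cb (Real.sqrt R))).card : ℝ) ^ 3

/-! ### linear programmes -/

/-- ALA: case A, gain `R^{-1/84}` -/
def T_ALA : Prop := ∀ (N H q E A L R a b y : ℝ) (M1 M t : Fin 4 → ℝ) (i₀ : Fin 4),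
  0 < N → 0 < H → 0 < q → 0 < E → 0 < A → 1 ≤ L → 1 ≤ R → 0 < a → 1 ≤ b → 1 ≤ y →
  (∀ i, 0 < M1 i) → (∀ i, 0 < M i) → (∀ i, 0 < t i) →
  (∀ i, t i * b * a ^ 2 * R ≤ L * E) → E ≤ L * A ^ 2 * R ^ 3 → a ≤ L * A →
  (∀ i, M1 i ≤ L * M i) → (∀ i, q * M i ≤ L * y * t i) → ∏ i, (M i * y) ≤ L * q ^ 3 →
  N * ∏ i, M1 i ≤ L * q * ∏ i, (M i * b) →
  (∀ i, N * H ^ 4 ≤ L * M1 i * a ^ 4 * (t i * b) * R ^ 2) →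
  N * H ^ (8 / 3 : ℝ) ≤ L * ∏ i, (a ^ 2 * (t i * b) * R) ^ (1 / 3 : ℝ) →
  N * M1 i₀ ^ 4 ≤ L * R ^ (1 / 2 : ℝ) * M i₀ * (t i₀ * b) * R ^ 2 →
  N * H ^ (10 / 3 : ℝ) ≤ L ^ 10 * R ^ (-(1 / 84) : ℝ) * A ^ (4 / 3 : ℝ) * R ^ (4 / 3 : ℝ) * E

/-- ALB: case B, gain `R^{-1/1164}` -/
def T_ALB : Prop := ∀ (N H q E A L R a b y V0 V1 : ℝ) (M1 M t D0 D1 : Fin 4 → ℝ),
  0 < N → 0 < H → 0 < q → 0 < E → 0 < A → 1 ≤ L → 1 ≤ R → 0 < a → 1 ≤ b → 1 ≤ y → 0 < V0 →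
  0 < V1 → (∀ i, 0 < M1 i) → (∀ i, 0 < M i) → (∀ i, 0 < t i) → (∀ i, 0 < D0 i) →
  (∀ i, 0 < D1 i) →
  (∀ i, t i * b * a ^ 2 * R ≤ L * E) → E ≤ L * A ^ 2 * R ^ 3 → a ≤ L * A →
  (∀ i, M1 i ≤ L * M i) → (∀ i, q * M i ≤ L * y * t i) → ∏ i, (M i * y) ≤ L * q ^ 3 →
  (∀ i, N * H ^ 4 ≤ L * M1 i * a ^ 4 * (t i * b) * R ^ 2) →
  N * H ^ (8 / 3 : ℝ) ≤ L * ∏ i, (a ^ 2 * (t i * b) * R) ^ (1 / 3 : ℝ) →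
  (∀ i, M1 i ≤ L * D0 i) →
  V0 * R ^ (1 / 2 : ℝ) * ∏ i, D0 i ≤ L * q * ∏ i, (M i * b) →
  V1 * R * ∏ i, D1 i ≤ L * q * ∏ i, (M i * b) →
  (∀ i, (N * H ^ 2) ^ 2 ≤ L * (D1 (i + 1) / D0 (i + 1)) * a ^ 4 * (t i * b) * R ^ 2 *
    (V0 * R ^ (1 / 2 : ℝ) * D0 i)) →
  (∀ i, (N * H ^ 2) ^ 2 ≤ L * (M (i + 1) * b * R ^ (-(1 / 2) : ℝ) / D1 (i + 1)) * a ^ 4 *
    (t i * b) * R ^ 2 * (V1 * R * D1 i)) →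
  N * H ^ (10 / 3 : ℝ) ≤ L ^ 10 * R ^ (-(1 / 1164) : ℝ) * A ^ (4 / 3 : ℝ) * R ^ (4 / 3 : ℝ) * E

end Pool.Agent.H88.B2
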