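import Pool.Agent.H88.B2.Targets

/-! LWW (after helper35's Pool/Agent/H35/B2/LWW.lean): four transversal families of planks of
width `w` in the cubes. -/

set_option autoImplicit false

namespace Pool.Agent.H88.B2.LWWf

open Pool.Agent.H83.G Pool.Agent.H88.B2
open Pool.Agent.H22.G4 (nv Ind)
open scoped RealInnerProductSpace

theorem lo_diff {m : ℕ} (η : E m) (hη : ‖η‖ ≤ 3) (x y : Z m) (h : ‖y - x‖ ≤ 2) :
    |(Lo η 1 x).1 - (Lo η 1 y).1| ≤ 26 := by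
  have e : (Lo η 1 x).1 - (Lo η 1 y).1 = -(y - x).1 - ⟪(y - x).2.1, η⟫ - (y - x).2.2 * ‖η‖ ^ 2 := by
    change (x.1 + ⟪x.2.1, η⟫ + x.2.2 * ‖η‖ ^ 2) - (y.1 + ⟪y.2.1, η⟫ + y.2.2 * ‖η‖ ^ 2) =
      -(y.1 - x.1) - ⟪y.2.1 - x.2.1, η⟫ - (y.2.2 - x.2.2) * ‖η‖ ^ 2
    rw [inner_sub_left]
    ring
  have h1 : |(y - x).1| ≤ 2 := (norm_fst_le (y - x)).trans h
  have h0 : ‖(y - x).2‖ ≤ 2 := (norm_snd_le (y - x)).trans h
  have h2 : ‖(y - x).2.1‖ ≤ 2 := (norm_fst_le (y - x).2).trans h0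
  have h3 : |(y - x).2.2| ≤ 2 := (norm_snd_le (y - x).2).trans h0
  have h4 : |⟪(y - x).2.1, η⟫| ≤ 2 * 3 :=
    (abs_real_inner_le_norm _ _).trans (mul_le_mul h2 hη (norm_nonneg _) (by norm_num))
  have h5 : |(y - x).2.2 * ‖η‖ ^ 2| ≤ 2 * 9 := by
    rw [abs_mul, abs_of_nonneg (by positivity : (0 : ℝ) ≤ ‖η‖ ^ 2)]
    refine mul_le_mul h3 ?_ (by positivity) (by norm_num)
    nlinarith [norm_nonneg η]
  rw [e, abs_le]
  rw [abs_le] at h1 h4 h5
  constructor <;> linarith [h1.1, h1.2, h4.1, h4.2, h5.1, h5.2]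

open scoped Classical in
theorem column (Q : Finset (Z 2)) (A : Z 2 → Fin 4 → Finset (Pk 2))
    (B : Fin 4 → Finset (Pk 2)) (K : ℝ) (hA : ∀ x ∈ Q, ∀ i, A x i ⊆ B i)
    (hK : ∀ W : Fin 4 → Pk 2, (∀ i, W i ∈ B i) →
      ((Q.filter (fun x => ∀ i, W i ∈ A x i)).card : ℝ) ≤ K) :
    ∑ x ∈ Q, ∏ i, ((A x i).card : ℝ) ≤ K * ∏ i, ((B i).card : ℝ) := by
  have h1 : ∀ x ∈ Q, ∏ i, ((A x i).card : ℝ) = ∑ W ∈ Fintype.piFinset B,
      if (∀ i, W i ∈ A x i) then (1 : ℝ) else 0 := by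
    intro x hx
    rw [← Finset.sum_filter, Finset.sum_const, nsmul_eq_mul, mul_one]
    have h2 : (Fintype.piFinset B).filter (fun W => ∀ i, W i ∈ A x i) =
        Fintype.piFinset (A x) := by
      ext W
      simp only [Finset.mem_filter, Fintype.mem_piFinset]
      exact ⟨fun h => h.2, fun h => ⟨fun i => hA x hx i (h i), h⟩⟩
    rw [h2, Fintype.card_piFinset, Nat.cast_prod]
  rw [Finset.sum_congr rfl h1, Finset.sum_comm]
  have h3 : ∀ W ∈ Fintype.piFinset B, (∑ x ∈ Q, if (∀ i, W i ∈ A x i) then (1 : ℝ) else 0) ≤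
      K := by
    intro W hW
    rw [← Finset.sum_filter, Finset.sum_const, nsmul_eq_mul, mul_one]
    exact hK W (Fintype.mem_piFinset.1 hW)
  refine (Finset.sum_le_sum h3).trans (le_of_eq ?_)
  rw [Finset.sum_const, nsmul_eq_mul, Fintype.card_piFinset, Nat.cast_prod, mul_comm]

theorem fibres {α β : Type} [DecidableEq β] (S : Finset α) (f : α → β) (P : β → Prop)
    [DecidablePred P] (b M : ℝ) (hb : 0 ≤ b)
    (h1 : ∀ W ∈ S, ((S.filter (fun W' => f W' = f W)).card : ℝ) ≤ b)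
    (h2 : (((S.image f).filter P).card : ℝ) ≤ M) :
    ((S.filter (fun W => P (f W))).card : ℝ) ≤ M * b := by
  have h3 : (S.filter (fun W => P (f W))).card =
      ∑ T ∈ (S.image f).filter P, ((S.filter (fun W => P (f W))).filter (fun W => f W = T)).card := by
    refine Finset.card_eq_sum_card_fiberwise ?_
    intro W hW
    rw [Finset.mem_coe, Finset.mem_filter] at hW
    rw [Finset.mem_coe, Finset.mem_filter]
    exact ⟨Finset.mem_image_of_mem f hW.1, hW.2⟩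
  rw [h3, Nat.cast_sum]
  have h4 : ∀ T ∈ (S.image f).filter P,
      ((((S.filter (fun W => P (f W))).filter (fun W => f W = T)).card : ℕ) : ℝ) ≤ b := by
    intro T hT
    obtain ⟨W, hW, rfl⟩ := Finset.mem_image.1 (Finset.mem_filter.1 hT).1
    refine le_trans ?_ (h1 W hW)
    exact_mod_cast Finset.card_le_card (Finset.filter_subset_filter _ (Finset.filter_subset _ _))
  refine (Finset.sum_le_sum h4).trans ?_
  rw [Finset.sum_const, nsmul_eq_mul]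
  exact mul_le_mul_of_nonneg_right h2 hb

theorem pf_LWW (hNDU : T_NDU) (hNDT : T_NDT) (hSLB : T_SLB) (hLOA : T_LOA) : T_LWW := by
  classical
  intro δ hδ hδ1
  obtain ⟨N₀, hN₀⟩ := hNDU 2 δ hδ
  refine ⟨N₀, fun N hN => ?_⟩
  obtain ⟨C₁, hC₁, k1⟩ := hN₀ N hN
  obtain ⟨C₂, hC₂, k2⟩ := hNDT 2 δ (by norm_num) hδ (by linarith)
  obtain ⟨C₃, hC₃, k3⟩ := hSLB 2
  refine ⟨C₁ + C₂ + 65536 * C₃ + 26, by linarith, ?_⟩
  intro R r w c S b M D QQ l k Q p hR hC hRw hwR hc hc1 hS hcard hInd hbM hb hQ hp hM hN'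
  have hR0 : 0 < R := by linarith
  have hRδ : 0 < R ^ δ := Real.rpow_pos_of_pos hR0 δ
  have hw : 0 < w := by linarith
  obtain ⟨A, hA⟩ : ∃ A : Z 2 → Fin 4 → Finset (Pk 2), A = fun x i =>
      (SB QQ R r δ (l i) (k i) (S i) (bl R r (cb (Real.sqrt R) x))).filter (fun W =>
        |(fc R δ W.1 (p i x) - zc W.2).1| ≤ w ∧ ‖(fc R δ W.1 (p i x) - zc W.2).2‖ ≤ R ^ δ) :=
    ⟨_, rfl⟩
  have hSBm : ∀ (i : Fin 4) (q : Zi 2) (W : Pk 2), W ∈ SB QQ R r δ (l i) (k i) (S i) q ↔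
      W ∈ S i ∧ Sh QQ R r δ (l i) (k i) (tb R W) q := by
    intro i q W
    unfold SB
    exact Finset.mem_filter
  have hSBs : ∀ (i : Fin 4) (q : Zi 2), SB QQ R r δ (l i) (k i) (S i) q ⊆ S i :=
    fun i q W hW => ((hSBm i q W).1 hW).1
  -- the numbers
  have hRh : R⁻¹ ≤ R ^ (-(1 / 2) : ℝ) / 2 := by
    have h1 : (2 : ℝ) ≤ R ^ (1 / 2 : ℝ) := by
      refine le_trans ?_ (Real.rpow_le_rpow_of_exponent_le hR (by linarith : δ ≤ 1 / 2))
      linarith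
    have h2 : R ^ (-(1 / 2) : ℝ) = R⁻¹ * R ^ (1 / 2 : ℝ) := by
      rw [← Real.rpow_neg_one R, ← Real.rpow_add hR0]
      norm_num
    rw [h2]
    have h3 : 0 < R⁻¹ := inv_pos.2 hR0
    nlinarith
  have hD : ∀ x ∈ Q, ∀ i, w * D i ≤ 2 * ((A x i).card : ℝ) := by
    intro x hx i
    have h1 := hN' x hx i
    have h2 := k1 R w (SB QQ R r δ (l i) (k i) (S i) (bl R r (cb (Real.sqrt R) x))) (p i x) hR
      (by linarith) hRw (fun W hW => (hS i W (hSBs i _ hW)).1) (by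
        refine le_trans (by exact_mod_cast Finset.card_le_card (hSBs i _)) ((hcard i).trans ?_)
        refine le_of_eq ?_
        norm_num)
    have h3 : ((A x i).card : ℝ) = (((SB QQ R r δ (l i) (k i) (S i)
        (bl R r (cb (Real.sqrt R) x))).filter (fun W => |(fc R δ W.1 (p i x) - zc W.2).1| ≤ w ∧
          ‖(fc R δ W.1 (p i x) - zc W.2).2‖ ≤ R ^ δ)).card : ℝ) := by
      rw [hA]
    rw [← h3] at h2
    have h4 := (hbM i).2.2
    linarith
  -- the sets of the cubes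
  obtain ⟨B, hB⟩ : ∃ B : Zi 2 → Fin 4 → Finset (Pk 2), B = fun q i =>
      (S i).filter (fun W => Inc R δ (tb R W) q ∧
        Sh QQ R r δ (l i) (k i) (tb R W) (bl R r q)) := ⟨_, rfl⟩
  have hBc : ∀ x ∈ Q, ∀ i, (((B (cb (Real.sqrt R) x) i)).card : ℝ) ≤ (2 * M i) * (2 * b i) := by
    intro x hx i
    have h0 := @fibres _ _ _ (S i) (tb R) (fun T => Inc R δ T (cb (Real.sqrt R) x) ∧
      Sh QQ R r δ (l i) (k i) T (bl R r (cb (Real.sqrt R) x))) _ (2 * b i) (2 * M i)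
      (by linarith [(hbM i).1]) (fun W hW => by
        refine le_trans ?_ (hb i W hW)
        refine Nat.cast_le.2 (Finset.card_le_card ?_)
        intro W' hW'
        simp only [Finset.mem_filter] at hW' ⊢
        exact hW') (hM x hx i)
    rw [hB]
    refine le_trans (le_of_eq ?_) h0
    have h9 : ∀ s t : Finset (Pk 2), (∀ W, W ∈ s ↔ W ∈ t) → (s.card : ℝ) = (t.card : ℝ) :=
      fun s t hst => by rw [Finset.ext hst]
    refine h9 _ _ fun W => ?_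
    simp only [Finset.mem_filter]
  have hAB : ∀ x ∈ Q, ∀ i, A x i ⊆ B (cb (Real.sqrt R) x) i := by
    intro x hx i W hW
    rw [hA] at hW
    obtain ⟨h1, h2, h3⟩ := Finset.mem_filter.1 hW
    obtain ⟨h4, h5⟩ := (hSBm i _ W).1 h1
    rw [hB]
    refine Finset.mem_filter.2 ⟨h4, ?_, h5⟩
    exact (k2 R w x (p i x) hR (by linarith) hRw hwR (hp x hx i)).1 W h2 h3
  -- points near four planks
  have hK : ∀ q : Zi 2, ∀ W : Fin 4 → Pk 2, (∀ i, W i ∈ B q i) →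
      (((Q.filter (fun x => cb (Real.sqrt R) x = q)).filter
        (fun x => ∀ i, W i ∈ A x i)).card : ℝ) ≤ C₃ * (2 * R ^ δ * w / (c * w)) ^ (2 + 2) := by
    intro q W hW
    have hWS : ∀ i, W i ∈ S i := by
      intro i
      have := hW i
      rw [hB] at this
      exact (Finset.mem_filter.1 this).1
    refine k3 c (2 * R ^ δ * w) w (fun i => ctr (sR R) (W i).1)
      (fun i => R ^ δ * ((W i).2.1 : ℝ)) _ hc hc1 hw ?_ (fun i => (hS i _ (hWS i)).2)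
      (hInd W hWS) ?_ ?_
    · nlinarith
    · intro x hx y hy hxy
      exact hQ x (Finset.mem_filter.1 (Finset.mem_filter.1 hx).1).1 y
        (Finset.mem_filter.1 (Finset.mem_filter.1 hy).1).1 hxy
    · intro x hx i
      obtain ⟨hx1, hx2⟩ := Finset.mem_filter.1 hx
      have hxQ := (Finset.mem_filter.1 hx1).1
      have h1 := hx2 i
      rw [hA] at h1
      have h2 := (Finset.mem_filter.1 h1).2.1
      have h3 : (fc R δ (W i).1 (p i x) - zc (W i).2).1 =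
          R ^ (-δ) * (Lo (ctr (sR R) (W i).1) 1 (p i x)).1 - ((W i).2.1 : ℝ) := rfl
      rw [h3] at h2
      have h4 : (Lo (ctr (sR R) (W i).1) 1 (p i x)).1 - R ^ δ * ((W i).2.1 : ℝ) =
          R ^ δ * (R ^ (-δ) * (Lo (ctr (sR R) (W i).1) 1 (p i x)).1 - ((W i).2.1 : ℝ)) := by
        rw [mul_sub, ← mul_assoc, ← Real.rpow_add hR0]
        norm_num
      have h5 : |(Lo (ctr (sR R) (W i).1) 1 (p i x)).1 - R ^ δ * ((W i).2.1 : ℝ)| ≤
          R ^ δ * w := by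
        rw [h4, abs_mul, abs_of_pos hRδ]
        exact mul_le_mul_of_nonneg_left h2 hRδ.le
      have h6 := lo_diff (ctr (sR R) (W i).1) (hS i _ (hWS i)).2 x (p i x) (hp x hxQ i)
      have h7 : (26 : ℝ) ≤ R ^ δ * w := by nlinarith
      have h8 := abs_sub_le (Lo (ctr (sR R) (W i).1) 1 x).1
        (Lo (ctr (sR R) (W i).1) 1 (p i x)).1 (R ^ δ * ((W i).2.1 : ℝ))
      change |(Lo (ctr (sR R) (W i).1) 1 x).1 - R ^ δ * ((W i).2.1 : ℝ)| ≤ 2 * R ^ δ * w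
      linarith
  -- sum over the cubes
  have hKe : (2 * R ^ δ * w / (c * w)) ^ (2 + 2) = 16 * (R ^ δ) ^ 4 * c⁻¹ ^ 4 := by
    have : 2 * R ^ δ * w / (c * w) = 2 * R ^ δ * c⁻¹ := by
      field_simp
    rw [this]
    ring
  have hcube : ∀ q ∈ Q.image (cb (Real.sqrt R)),
      ∑ x ∈ Q.filter (fun x => cb (Real.sqrt R) x = q), ∏ i, ((A x i).card : ℝ) ≤
        (C₃ * (16 * (R ^ δ) ^ 4 * c⁻¹ ^ 4)) * (256 * ∏ i, (M i * b i)) := by
    intro q hq
    obtain ⟨x₀, hx₀, rfl⟩ := Finset.mem_image.1 hq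
    have h1 := column (Q.filter (fun x => cb (Real.sqrt R) x = cb (Real.sqrt R) x₀)) A
      (B (cb (Real.sqrt R) x₀)) (C₃ * (2 * R ^ δ * w / (c * w)) ^ (2 + 2)) (by
        intro x hx i
        obtain ⟨hx1, hx2⟩ := Finset.mem_filter.1 hx
        rw [← hx2]
        exact hAB x hx1 i) (hK (cb (Real.sqrt R) x₀))
    rw [hKe] at h1
    refine h1.trans (mul_le_mul_of_nonneg_left ?_ (by positivity))
    have h2 : ∏ i, ((B (cb (Real.sqrt R) x₀) i).card : ℝ) ≤ ∏ i, ((2 * M i) * (2 * b i)) :=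
      Finset.prod_le_prod (fun i _ => Nat.cast_nonneg _) (fun i _ => hBc x₀ hx₀ i)
    refine h2.trans (le_of_eq ?_)
    rw [Fin.prod_univ_four, Fin.prod_univ_four]
    ring
  have hsum : ∑ x ∈ Q, ∏ i, ((A x i).card : ℝ) ≤ ((Q.image (cb (Real.sqrt R))).card : ℝ) *
      ((C₃ * (16 * (R ^ δ) ^ 4 * c⁻¹ ^ 4)) * (256 * ∏ i, (M i * b i))) := by
    rw [← Finset.sum_fiberwise_of_maps_to (t := Q.image (cb (Real.sqrt R)))
      (g := cb (Real.sqrt R)) (fun x hx => Finset.mem_image_of_mem _ hx)]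
    refine (Finset.sum_le_sum hcube).trans (le_of_eq ?_)
    rw [Finset.sum_const, nsmul_eq_mul]
  have hmain : (Q.card : ℝ) * ∏ i, (w * D i) ≤ 16 * ∑ x ∈ Q, ∏ i, ((A x i).card : ℝ) := by
    rw [← nsmul_eq_mul, ← Finset.sum_const, Finset.mul_sum]
    refine Finset.sum_le_sum fun x hx => ?_
    have h1 : ∏ i, (w * D i) ≤ ∏ i, (2 * ((A x i).card : ℝ)) := by
      refine Finset.prod_le_prod (fun i _ => ?_) (fun i _ => hD x hx i)
      exact (Real.rpow_nonneg hR0.le _).trans (hbM i).2.2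
    refine h1.trans (le_of_eq ?_)
    rw [Fin.prod_univ_four, Fin.prod_univ_four]
    ring
  have hpM : 0 ≤ ∏ i, (M i * b i) :=
    Finset.prod_nonneg fun i _ => mul_nonneg (hbM i).2.1.le (hbM i).1.le
  have hR4 : (R ^ δ) ^ 4 ≤ R ^ (lo 2 * δ) := by
    rw [← Real.rpow_natCast, ← Real.rpow_mul hR0.le]
    refine Real.rpow_le_rpow_of_exponent_le hR ?_
    unfold lo
    push_cast
    nlinarith
  refine hmain.trans ((mul_le_mul_of_nonneg_left hsum (by norm_num)).trans ?_)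
  have e1 : 16 * (((Q.image (cb (Real.sqrt R))).card : ℝ) *
      ((C₃ * (16 * (R ^ δ) ^ 4 * c⁻¹ ^ 4)) * (256 * ∏ i, (M i * b i)))) =
      (65536 * C₃) * (R ^ δ) ^ 4 * (c⁻¹ ^ 4 * ((Q.image (cb (Real.sqrt R))).card : ℝ) *
        ∏ i, (M i * b i)) := by ring
  have e2 : (C₁ + C₂ + 65536 * C₃ + 26) * R ^ (lo 2 * δ) * c⁻¹ ^ 4 *
      ((Q.image (cb (Real.sqrt R))).card : ℝ) * ∏ i, (M i * b i) =
      (C₁ + C₂ + 65536 * C₃ + 26) * R ^ (lo 2 * δ) * (c⁻¹ ^ 4 *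
        ((Q.image (cb (Real.sqrt R))).card : ℝ) * ∏ i, (M i * b i)) := by ring
  rw [e1, e2]
  refine mul_le_mul_of_nonneg_right ?_ (by positivity)
  exact mul_le_mul (by linarith) hR4 (by positivity) (by linarith)

end Pool.Agent.H88.B2.LWWf
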