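import Pool.Agent.H88.B2.Targets

/-! NDM: upper bounds of the weighted numbers in the two-ends case. -/

set_option autoImplicit false

namespace Pool.Agent.H88.B2.NDM

open Pool.Agent.H83.G Pool.Agent.H88.B2

theorem fibres {α β : Type} [DecidableEq β] (S A : Finset α) (f : α → β) (P : β → Prop)
    [DecidablePred P] (b M : ℝ) (hb : 0 ≤ b) (hA : A ⊆ S) (hP : ∀ W ∈ A, P (f W))
    (h1 : ∀ T ∈ S.image f, ((A.filter (fun W => f W = T)).card : ℝ) ≤ b)
    (h2 : (((S.image f).filter P).card : ℝ) ≤ M) :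
    (A.card : ℝ) ≤ M * b := by
  have h3 : A.card =
      ∑ T ∈ (S.image f).filter P, (A.filter (fun W => f W = T)).card := by
    refine Finset.card_eq_sum_card_fiberwise ?_
    intro W hW
    rw [Finset.mem_coe] at hW
    rw [Finset.mem_coe, Finset.mem_filter]
    exact ⟨Finset.mem_image_of_mem f (hA hW), hP W hW⟩
  rw [h3, Nat.cast_sum]
  have h4 : ∀ T ∈ (S.image f).filter P,
      (((A.filter (fun W => f W = T)).card : ℕ) : ℝ) ≤ b :=
    fun T hT => h1 T (Finset.mem_filter.1 hT).1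
  refine (Finset.sum_le_sum h4).trans ?_
  rw [Finset.sum_const, nsmul_eq_mul]
  exact mul_le_mul_of_nonneg_right h2 hb

theorem pf_NDM (hNDU : T_NDU) (hNDT : T_NDT) : T_NDM := by
  classical
  intro m δ hm hδ hδ1
  obtain ⟨N₀, hN₀⟩ := hNDU m δ hδ
  refine ⟨N₀, fun N hN => ?_⟩
  obtain ⟨C₁, hC₁, k1⟩ := hN₀ N hN
  obtain ⟨C₂, hC₂, k2⟩ := hNDT m δ hm hδ hδ1
  refine ⟨C₁ + 2 * C₂ + 10, by linarith, ?_⟩
  intro R r w b M S QQ l k z z' hR hC hRw hwR hb hM hS hcard hz hfib hM'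
  have hR0 : 0 < R := by linarith
  have hRi : R⁻¹ ≤ 1 := inv_le_one_of_one_le₀ hR
  have hw1 : 1 ≤ w := by
    refine le_trans ?_ hRw
    exact Real.one_le_rpow hR hδ.le
  obtain ⟨q, hq⟩ : ∃ q, q = bl R r (cb (Real.sqrt R) z) := ⟨_, rfl⟩
  rw [← hq] at hM'
  rw [← hq]
  have hSBm : ∀ W : Pk m, W ∈ SB QQ R r δ l k S q ↔ W ∈ S ∧ Sh QQ R r δ l k (tb R W) q := by
    intro W
    unfold SB
    exact Finset.mem_filter
  have hSBs : SB QQ R r δ l k S q ⊆ S := fun W hW => ((hSBm W).1 hW).1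
  obtain ⟨A, hA⟩ : ∃ A : Finset (Pk m), A = (SB QQ R r δ l k S q).filter (fun W =>
      |(fc R δ W.1 z' - zc W.2).1| ≤ w ∧ ‖(fc R δ W.1 z' - zc W.2).2‖ ≤ R ^ δ) := ⟨_, rfl⟩
  have h2 := k1 R w (SB QQ R r δ l k S q) z' hR (by linarith) hRw
    (fun W hW => hS W (hSBs hW)) (le_trans (by exact_mod_cast Finset.card_le_card hSBs) hcard)
  have h3 : ((((SB QQ R r δ l k S q).filter (fun W => |(fc R δ W.1 z' - zc W.2).1| ≤ w ∧
      ‖(fc R δ W.1 z' - zc W.2).2‖ ≤ R ^ δ)).card : ℕ) : ℝ) = (A.card : ℝ) := by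
    rw [hA]
  rw [h3] at h2
  obtain ⟨h4, h5⟩ := k2 R w z z' hR (by linarith) hRw hwR hz
  have hAS : A ⊆ S := by
    rw [hA]
    exact (Finset.filter_subset _ _).trans hSBs
  have hAP : ∀ W ∈ A, Inc R δ (tb R W) (cb (Real.sqrt R) z) ∧ Sh QQ R r δ l k (tb R W) q := by
    intro W hW
    rw [hA] at hW
    obtain ⟨e1, e2, e3⟩ := Finset.mem_filter.1 hW
    exact ⟨h4 W e2 e3, ((hSBm W).1 e1).2⟩
  have hf1 : (A.card : ℝ) ≤ (2 * M) * (2 * b) := by
    refine @fibres _ _ _ S A (tb R) (fun T => Inc R δ T (cb (Real.sqrt R) z) ∧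
      Sh QQ R r δ l k T q) _ (2 * b) (2 * M) (by linarith) hAS hAP ?_ hM'
    intro T hT
    simp only [Finset.mem_image] at hT
    obtain ⟨W, hW, rfl⟩ := hT
    refine le_trans ?_ (hfib W hW)
    refine Nat.cast_le.2 (Finset.card_le_card ?_)
    intro W' hW'
    simp only [Finset.mem_filter] at hW' ⊢
    exact ⟨hAS hW'.1, hW'.2⟩
  have hf2 : (A.card : ℝ) ≤ (2 * M) * (C₂ * w) := by
    refine @fibres _ _ _ S A (tb R) (fun T => Inc R δ T (cb (Real.sqrt R) z) ∧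
      Sh QQ R r δ l k T q) _ (C₂ * w) (2 * M) (by positivity) hAS hAP ?_ hM'
    intro T hT
    refine le_trans ?_ (h5 S T)
    refine Nat.cast_le.2 (Finset.card_le_card ?_)
    intro W hW
    rw [hA] at hW
    simp only [Finset.mem_filter] at hW ⊢
    exact ⟨hSBs hW.1.1, hW.2, hW.1.2.1⟩
  have hM0 : 0 < M := by linarith
  have hMw : M ≤ M * w := by nlinarith
  have hMb : M ≤ M * b := by nlinarith
  constructor
  · refine h2.trans ?_
    have e0 : (2 * M) * (C₂ * w) = (2 * C₂) * (w * M) := by ring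
    have e1 : (C₁ + 2 * C₂ + 10) * w * M = (2 * C₂) * (w * M) + (C₁ + 10) * (M * w) := by ring
    have e2 : 10 * (M * w) ≤ (C₁ + 10) * (M * w) := by
      refine mul_le_mul_of_nonneg_right (by linarith) (by positivity)
    rw [e1]
    linarith
  · refine h2.trans ?_
    have e1 : (C₁ + 2 * C₂ + 10) * M * b = 4 * (M * b) + (C₁ + 2 * C₂ + 6) * (M * b) := by ring
    have e2 : 6 * (M * b) ≤ (C₁ + 2 * C₂ + 6) * (M * b) := by
      refine mul_le_mul_of_nonneg_right (by linarith) (by positivity)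
    have e3 : (2 * M) * (2 * b) = 4 * (M * b) := by ring
    rw [e1]
    linarith

end Pool.Agent.H88.B2.NDM
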