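import Pool.Agent.H88.B2.Targets

/-! NDT: planks at distance `w` of a point and the tubes through the cube of a near point. -/

set_option autoImplicit false

namespace Pool.Agent.H88.B2.NDT

open Pool.Agent.H83.G Pool.Agent.H88.B2
open scoped RealInnerProductSpace

theorem lo_fst {m : ℕ} (η : E m) (s v : ℝ) : Lo η s ((v, (0, 0)) : Z m) = (v, (0, 0)) := by
  change (v + ⟪(0 : E m), η⟫ + 0 * ‖η‖ ^ 2, s • ((0 : E m) + (2 * (0 : ℝ)) • η),
    s ^ 2 * (0 : ℝ)) = (v, ((0 : E m), (0 : ℝ)))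
  rw [inner_zero_left]
  simp

theorem card_int (x w : ℝ) (hw : 0 ≤ w) (A : Finset ℤ) (hA : ∀ n ∈ A, |x - (n : ℝ)| ≤ w) :
    (A.card : ℝ) ≤ 2 * w + 1 := by
  have h1 : A ⊆ Finset.Icc ⌈x - w⌉ ⌊x + w⌋ := by
    intro n hn
    have := abs_le.1 (hA n hn)
    rw [Finset.mem_Icc]
    constructor
    · exact Int.ceil_le.2 (by linarith)
    · exact Int.le_floor.2 (by linarith)
  have h2 := Finset.card_le_card h1
  rw [Int.card_Icc] at h2
  have h3 : (A.card : ℝ) ≤ (((⌊x + w⌋ + 1 - ⌈x - w⌉).toNat : ℕ) : ℝ) := by exact_mod_cast h2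
  refine h3.trans ?_
  have h4 : (((⌊x + w⌋ + 1 - ⌈x - w⌉).toNat : ℕ) : ℝ) =
      (((max (⌊x + w⌋ + 1 - ⌈x - w⌉) 0 : ℤ)) : ℝ) := by
    rw [← Int.toNat_eq_max]
    norm_cast
  rw [h4, Int.cast_max]
  refine max_le ?_ ?_
  · push_cast
    have h5 := Int.floor_le (x + w)
    have h6 := Int.le_ceil (x - w)
    linarith
  · push_cast
    linarith

theorem pf_NDT (hCBN : T_CBN) (hLOA : T_LOA) : T_NDT := by
  classical
  intro m δ hm hδ hδ1
  refine ⟨4, by norm_num, ?_⟩
  intro R w z z' hR hC hRw hwR hz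
  have hR0 : 0 < R := by linarith
  have ha : 0 < R ^ δ := Real.rpow_pos_of_pos hR0 δ
  have hw : 4 ≤ w := hC.trans hRw
  have hsq : 1 ≤ Real.sqrt R := Real.one_le_sqrt.2 hR
  have hRR : R ^ (1 / 2 + δ) = Real.sqrt R * R ^ δ := by
    rw [Real.rpow_add hR0, Real.sqrt_eq_rpow]
  have hm' : (1 : ℝ) ≤ m := by exact_mod_cast hm
  constructor
  · intro W h1 h2
    obtain ⟨x, hx⟩ : ∃ x : Z m, x = fc R δ W.1 z' - zc W.2 := ⟨_, rfl⟩
    rw [← hx] at h1 h2
    refine ⟨W, z' - ((R ^ δ * x.1, (0, 0)) : Z m), rfl, ?_, ?_⟩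
    · have e1 : z' - ((R ^ δ * x.1, (0, 0)) : Z m) - Real.sqrt R • zc (cb (Real.sqrt R) z) =
          (z' - z) + (z - Real.sqrt R • zc (cb (Real.sqrt R) z)) -
            ((R ^ δ * x.1, (0, 0)) : Z m) := by abel
      have e2 : ‖((R ^ δ * x.1, (0, 0)) : Z m)‖ ≤ R ^ δ * w := by
        rw [Prod.norm_mk, Prod.norm_mk]
        refine max_le ?_ (max_le ?_ ?_)
        · rw [Real.norm_eq_abs, abs_mul, abs_of_pos ha]
          exact mul_le_mul_of_nonneg_left h1 ha.le
        · rw [norm_zero]; positivity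
        · rw [norm_zero]; positivity
      have e3 := (hCBN m).1 (Real.sqrt R) z (by linarith)
      rw [e1]
      refine (norm_sub_le _ _).trans ?_
      have e4 := norm_add_le (z' - z) (z - Real.sqrt R • zc (cb (Real.sqrt R) z))
      have e5 : R ^ δ * w ≤ R ^ δ * Real.sqrt R := mul_le_mul_of_nonneg_left hwR ha.le
      rw [hRR]
      have e6 : (4 : ℝ) * Real.sqrt R ≤ Real.sqrt R * R ^ δ := by nlinarith
      have e7 : (m : ℝ) * (4 * Real.sqrt R) ≤ m * (Real.sqrt R * R ^ δ) :=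
        mul_le_mul_of_nonneg_left e6 (by linarith)
      have e8 : (m : ℝ) * Real.sqrt R ≥ Real.sqrt R := by nlinarith
      nlinarith
    · unfold near
      have e1 : fc R δ W.1 (z' - ((R ^ δ * x.1, (0, 0)) : Z m)) =
          fc R δ W.1 z' - ((x.1, (0, 0)) : Z m) := by
        unfold fc
        rw [((hLOA m).1 _ _ _ _).2.1, lo_fst, smul_sub]
        congr 1
        rw [Prod.smul_mk, Prod.smul_mk, smul_zero, smul_zero, smul_eq_mul, ← mul_assoc,
          ← Real.rpow_add hR0]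
        simp
      have e2 : fc R δ W.1 z' - ((x.1, (0, 0)) : Z m) - zc W.2 = ((0, x.2) : Z m) := by
        have : fc R δ W.1 z' - ((x.1, (0, 0)) : Z m) - zc W.2 = x - ((x.1, (0, 0)) : Z m) := by
          rw [hx]; abel
        rw [this]
        refine Prod.ext ?_ ?_
        · simp
        · change x.2 - (0, 0) = x.2
          exact sub_zero _
      rw [e1, e2, Prod.norm_mk, norm_zero]
      exact max_le ha.le h2
  · intro S T
    have hinj : ∀ W ∈ S.filter (fun W => tb R W = T ∧ |(fc R δ W.1 z' - zc W.2).1| ≤ w),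
        ∀ W' ∈ S.filter (fun W => tb R W = T ∧ |(fc R δ W.1 z' - zc W.2).1| ≤ w),
        W.2.1 = W'.2.1 → W = W' := by
      intro W hW W' hW' h
      simp only [Finset.mem_filter] at hW hW'
      have h1 := hW.2.1.trans hW'.2.1.symm
      unfold tb at h1
      simp only [Prod.mk.injEq] at h1
      exact Prod.ext h1.1 (Prod.ext h (Prod.ext h1.2.2.1 h1.2.2.2))
    obtain ⟨A, hA⟩ : ∃ A : Finset ℤ, A = (S.filter (fun W => tb R W = T ∧
      |(fc R δ W.1 z' - zc W.2).1| ≤ w)).image (fun W => W.2.1) := ⟨_, rfl⟩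
    have hcard : (A.card : ℝ) = ((S.filter (fun W => tb R W = T ∧
        |(fc R δ W.1 z' - zc W.2).1| ≤ w)).card : ℝ) := by
      rw [hA, Finset.card_image_of_injOn]
      intro W hW W' hW' h
      exact hinj W hW W' hW' h
    have h1 := card_int (fc R δ T.1 z').1 w (by linarith) A (by
      intro n hn
      rw [hA] at hn
      simp only [Finset.mem_image, Finset.mem_filter] at hn
      obtain ⟨W, ⟨_, h1, h2⟩, rfl⟩ := hn
      have h3 : W.1 = T.1 := by rw [← h1]; rfl
      rw [← h3]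
      exact h2)
    rw [hcard] at h1
    have h2 : (2 : ℝ) * w + 1 ≤ 4 * w := by linarith
    convert h1.trans h2

end Pool.Agent.H88.B2.NDT
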