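import Pool.Agent.H88.B2.Targets

/-! NDU: weighted numbers and sharp numbers. -/

set_option autoImplicit false

namespace Pool.Agent.H88.B2.NDU

open Pool.Agent.H83.G Pool.Agent.H88.B2

theorem inv_pow_le {a x : ℝ} (N : ℕ) (ha : 0 < a) (h : a ≤ 1 + x) :
    ((1 + x) ^ N)⁻¹ ≤ (a ^ N)⁻¹ := by
  refine inv_anti₀ (pow_pos ha N) ?_
  exact pow_le_pow_left₀ ha.le h N

theorem inv_pow_le_one {x : ℝ} (N : ℕ) (h : 0 ≤ x) : ((1 + x) ^ N)⁻¹ ≤ 1 := by
  refine inv_le_one_of_one_le₀ ?_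
  exact one_le_pow₀ (by linarith)

theorem pf_NDU : T_NDU := by
  classical
  intro m δ hδ
  refine ⟨⌈((4 : ℝ) * (m + 2) + 1) / δ⌉₊, fun N hN => ⟨1, le_refl _, ?_⟩⟩
  intro R w S z hR _ hRw _ hcard
  have hR0 : 0 < R := by linarith
  have ha : 0 < R ^ δ := Real.rpow_pos_of_pos hR0 δ
  have hw : 0 < w := by linarith
  have hN1 : (4 : ℝ) * (m + 2) + 1 ≤ δ * N := by
    have h1 : ((4 : ℝ) * (m + 2) + 1) / δ ≤ N := (Nat.le_ceil _).trans (by exact_mod_cast hN)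
    rw [div_le_iff₀ hδ] at h1
    linarith
  have hpow : R ^ ((4 : ℝ) * (m + 2)) * ((R ^ δ) ^ N)⁻¹ ≤ R⁻¹ := by
    have h1 : (R ^ δ) ^ N = R ^ (δ * N) := by
      rw [Real.rpow_mul hR0.le, Real.rpow_natCast]
    rw [h1, ← Real.rpow_neg hR0.le, ← Real.rpow_add hR0, ← Real.rpow_neg_one R]
    refine Real.rpow_le_rpow_of_exponent_le hR ?_
    linarith
  obtain ⟨P, hP⟩ : ∃ P : Pk m → Prop, P = fun W => |(fc R δ W.1 z - zc W.2).1| ≤ w ∧
    ‖(fc R δ W.1 z - zc W.2).2‖ ≤ R ^ δ := ⟨_, rfl⟩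
  have key : ∀ W : Pk m, ww N R δ w W z ≤ (if P W then 1 else 0) + ((R ^ δ) ^ N)⁻¹ := by
    intro W
    have q0 : 0 ≤ ((R ^ δ) ^ N)⁻¹ := by positivity
    have a1 : 0 ≤ |(R ^ δ / w) * (fc R δ W.1 z - zc W.2).1| := abs_nonneg _
    have a2 : 0 ≤ ‖(fc R δ W.1 z - zc W.2).2‖ := norm_nonneg _
    have b1 := inv_pow_le_one N a1
    have b2 := inv_pow_le_one N a2
    have c1 : 0 ≤ ((1 + |(R ^ δ / w) * (fc R δ W.1 z - zc W.2).1|) ^ N)⁻¹ := by positivity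
    have c2 : 0 ≤ ((1 + ‖(fc R δ W.1 z - zc W.2).2‖) ^ N)⁻¹ := by positivity
    unfold ww
    by_cases h : P W
    · rw [if_pos h]
      have := mul_le_mul b1 b2 c2 (by norm_num)
      linarith
    · rw [if_neg h, zero_add]
      rw [hP] at h
      simp only [not_and_or, not_le] at h
      rcases h with h | h
      · have d1 : R ^ δ ≤ 1 + |(R ^ δ / w) * (fc R δ W.1 z - zc W.2).1| := by
          rw [abs_mul, abs_of_pos (div_pos ha hw), div_mul_eq_mul_div]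
          have d2 : R ^ δ ≤ R ^ δ * |(fc R δ W.1 z - zc W.2).1| / w := by
            rw [le_div_iff₀ hw]
            exact mul_le_mul_of_nonneg_left h.le ha.le
          linarith
        have d3 := inv_pow_le N ha d1
        calc _ ≤ ((R ^ δ) ^ N)⁻¹ * 1 := mul_le_mul d3 b2 c2 q0
          _ = _ := mul_one _
      · have d1 : R ^ δ ≤ 1 + ‖(fc R δ W.1 z - zc W.2).2‖ := by linarith
        have d3 := inv_pow_le N ha d1
        calc _ ≤ 1 * ((R ^ δ) ^ N)⁻¹ := mul_le_mul b1 d3 c2 (by norm_num)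
          _ = _ := one_mul _
  have hsum : Nd N R δ w S z ≤ ((S.filter P).card : ℝ) + S.card * ((R ^ δ) ^ N)⁻¹ := by
    unfold Nd
    refine (Finset.sum_le_sum fun W _ => key W).trans (le_of_eq ?_)
    rw [Finset.sum_add_distrib, Finset.sum_const, nsmul_eq_mul, ← Finset.sum_filter,
      Finset.sum_const, nsmul_eq_mul, mul_one]
  have hf : ((S.filter P).card : ℝ) = ((S.filter (fun W => |(fc R δ W.1 z - zc W.2).1| ≤ w ∧
    ‖(fc R δ W.1 z - zc W.2).2‖ ≤ R ^ δ)).card : ℝ) := by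
    subst hP
    congr
  rw [← hf]
  have h9 : (S.card : ℝ) * ((R ^ δ) ^ N)⁻¹ ≤ R ^ ((4 : ℝ) * (m + 2)) * ((R ^ δ) ^ N)⁻¹ :=
    mul_le_mul_of_nonneg_right hcard (by positivity)
  linarith

end Pool.Agent.H88.B2.NDU
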