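import Pool.Agent.H88.B2.ASM5
import Pool.Agent.H88.B2.NDU
import Pool.Agent.H88.B2.NDT
import Pool.Agent.H88.B2.NDM
import Pool.Agent.H82.FP.Chain1
import Pool.Agent.H82.G4.Chain4
import Pool.Agent.H84.HLM.All
import Pool.Agent.H11.B2.ALA
import Pool.Agent.H12.B2.ALB
import Pool.Agent.H35.B2.DA1
import Pool.Agent.H42.B2.DEN
import Pool.Agent.H23.B2.DHL
import Pool.Agent.H26.B2.DI1
import Pool.Agent.H23.B2.DKS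
import Pool.Agent.H95.B2.DL2
import Pool.Agent.H23.B2.DLW
import Pool.Agent.H73.B2.DML
import Pool.Agent.H59.B2.DMU
import Pool.Agent.H59.B2.DRD
import Pool.Agent.H45.B2.ENP
import Pool.Agent.H42.B2.GRP
import Pool.Agent.H97.B2.L2A
import Pool.Agent.H63.B2.L2C
import Pool.Agent.H4.B2.L2D
import Pool.Agent.H46.B2.L2W
import Pool.Agent.H88.B2.LWWf
import Pool.Agent.H97.B2.OM1
import Pool.Agent.H76.B2.PGR
import Pool.Agent.H53.B2.RD4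
import Pool.Agent.H45.B2.RDI
import Pool.Agent.H36.B2.SLB
import Pool.Agent.H1.B2.WWE
import Pool.Agent.H26.B2.WWS

/-!
MP_ee74d2_an, dimension 3: the two-ends case B2, all rows together.
-/

set_option autoImplicit false

namespace Pool.Agent.H88.B2.All

open Pool.Agent.H83.G Pool.Agent.H83.G.Chain Pool.Agent.H82.G4.Chain Pool.Agent.H88.B2
open Pool.Agent.H22.G4 (T_IN1 T_IN2 pf_IN1 pf_IN2)

theorem a_WWE : T_WWE := Pool.Agent.H1.B2.WWE.pf_WWE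
theorem a_WWS : T_WWS := Pool.Agent.H26.B2.WWS.pf_WWS m_LOA m_LOB
theorem a_DI1 : T_DI1 := Pool.Agent.H26.B2.DI1.pf_DI1 a_WWS m_LOI m_LOA
theorem a_OM1 : T_OM1 := Pool.Agent.H97.B2.OM1.pf_OM1 m_WT1 m_WT2 m_WT3
theorem a_DEN : T_DEN := Pool.Agent.H42.B2.DEN.pf_DEN a_DI1 a_WWS a_OM1 m_WT1
theorem a_GRP : T_GRP := Pool.Agent.H42.B2.GRP.pf_GRP
theorem a_RDI : T_RDI :=
  Pool.Agent.H45.B2.RDI.pf_RDI k_RDA m_PKT m_PTW m_LOA m_LOI m_WT1 m_WT2 m_WT3 m_LWX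
theorem a_ENP : T_ENP :=
  Pool.Agent.H45.B2.ENP.pf_ENP m_PKT m_PLN m_PTW m_WT2 m_WT3 m_PUS m_LOI m_LWX
theorem a_L2A : T_L2A :=
  Pool.Agent.H97.B2.L2A.pf_L2A m_PKT m_SPW m_LO m_PUS a_OM1 m_LOA m_LWX
theorem a_L2C : T_L2C :=
  Pool.Agent.H63.B2.L2C.pf_L2C m_PKT m_LCN m_SCL m_LOI m_LOA m_LOB a_WWS m_SCH m_LWX
theorem a_L2D : T_L2D := Pool.Agent.H4.B2.L2D.pf_L2D a_WWS m_LOA
theorem a_L2W : T_L2W :=
  Pool.Agent.H46.B2.L2W.pf_L2W a_DEN a_RDI a_L2A a_L2C a_L2D a_GRP a_WWE m_WT1 a_OM1 m_PLN m_CPS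
theorem a_RD4 : T_RD4 := Pool.Agent.H53.B2.RD4.pf_RD4 k_RDP m_TLS a_WWE m_WT1 m_AMU
theorem a_SLB : T_SLB := Pool.Agent.H36.B2.SLB.pf_SLB
theorem a_NDU : T_NDU := Pool.Agent.H88.B2.NDU.pf_NDU
theorem a_NDT : T_NDT := Pool.Agent.H88.B2.NDT.pf_NDT m_CBN m_LOA
theorem a_NDM : T_NDM := Pool.Agent.H88.B2.NDM.pf_NDM a_NDU a_NDT
theorem a_LWW : T_LWW := Pool.Agent.H88.B2.LWWf.pf_LWW a_NDU a_NDT a_SLB m_LOA
theorem a_PGR : T_PGR := Pool.Agent.H76.B2.PGR.pf_PGR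
theorem a_DA1 : T_DA1 :=
  Pool.Agent.H35.B2.DA1.pf_DA1 m_AMU m_TLS m_PTW m_CBN pf_IN1 pf_IN2 a_WWE m_WT1
theorem a_DRD : T_DRD := Pool.Agent.H59.B2.DRD.pf_DRD a_RD4 a_DA1
theorem a_DML : T_DML :=
  Pool.Agent.H73.B2.DML.pf_DML Pool.Agent.H82.FP.Chain.f_FLP2 a_ENP a_DA1 m_AMU
theorem a_DLW : T_DLW := Pool.Agent.H23.B2.DLW.pf_DLW a_LWW a_DA1
theorem a_DL2 : T_DL2 := Pool.Agent.H95.B2.DL2.pf_DL2 a_L2W a_DA1
theorem a_DMU : T_DMU := Pool.Agent.H59.B2.DMU.pf_DMU a_NDM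
theorem a_DHL : T_DHL := Pool.Agent.H23.B2.DHL.pf_DHL Pool.Agent.H84.HLM.All.hl_main88 a_DMU a_DA1
theorem a_DKS : T_DKS := Pool.Agent.H23.B2.DKS.pf_DKS Pool.Agent.H82.FP.Chain.f_KST a_DA1
theorem a_ALA : T_ALA := Pool.Agent.H11.B2.ALA.pf_ALA
theorem a_ALB : T_ALB := Pool.Agent.H12.B2.ALB.pf_ALB

/-- B2: the two-ends case of Lemma B in dimension `3` (`m = 2`) -/
theorem b2 : Pool.Agent.H82.LB.T_B2 :=
  Pool.Agent.H88.B2.pf_B2 a_DA1 a_DRD a_DML a_DLW a_DL2 a_DHL a_DMU a_DKS a_ALA a_ALB a_PGR a_WWE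
    m_WT3

end Pool.Agent.H88.B2.All
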