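import Pool.Agent.H83.G.Targets5
import Pool.Agent.H22.G4.TargetsJ

/-!
Local smoothing in dimension `3` below `p = 10/3` (MP_ee74d2_an), the two-ends case: planks
thickened to width `w`.
-/

set_option autoImplicit false

namespace Pool.Agent.H88.B2

open MeasureTheory Set
open Pool.Agent.H83.G
open scoped ENNReal NNReal RealInnerProductSpace

section

variable {m : ℕ}

/-- weight of the plank `W` thickened to width `w` in its thin direction (a product of two
factors, so that nothing is lost when one integrates in the thin direction) -/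
noncomputable def ww (N : ℕ) (R δ w : ℝ) (W : Pk m) (z : Z m) : ℝ :=
  ((1 + |(R ^ δ / w) * (fc R δ W.1 z - zc W.2).1|) ^ N)⁻¹ *
    ((1 + ‖(fc R δ W.1 z - zc W.2).2‖) ^ N)⁻¹

/-- weighted number of planks of `P` at distance about `w` of the point `z` -/
noncomputable def Nd (N : ℕ) (R δ w : ℝ) (P : Finset (Pk m)) (z : Z m) : ℝ :=
  ∑ W ∈ P, ww N R δ w W z

/-- sum of bumps of size `w` at the points of `Q` -/
noncomputable def Om (N : ℕ) (w : ℝ) (Q : Finset (Z m)) (z : Z m) : ℝ :=
  ∑ x ∈ Q, wt N (w⁻¹ • (z - x))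

/-- `w`-separated finite sets -/
def Sepw (w : ℝ) (Q : Finset (Z m)) : Prop := ∀ z ∈ Q, ∀ z' ∈ Q, z ≠ z' → w ≤ ‖z - z'‖

end

end Pool.Agent.H88.B2
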