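import Pool.Agent.H88.B2.Targets2
import Pool.Agent.H83.G.BroA

/-!
MP_ee74d2_an, dimension 3: the two-ends case B2, assembly, first part (pigeonholes, lemmas).
-/

set_option autoImplicit false

namespace Pool.Agent.H88.B2

open MeasureTheory Set
open Pool.Agent.H83.G Pool.Agent.H83.G.BRO Pool.Agent.H83.G.TEN
open Pool.Agent.H22.G4 (nv Ind)
open scoped ENNReal NNReal RealInnerProductSpace

theorem absb {R δ x y c : ℝ} (hR : 1 ≤ R) (hc : c ≤ R ^ δ) (h : δ + x ≤ y) :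
    c * R ^ x ≤ R ^ y := by
  have hR0 : 0 < R := by linarith
  calc c * R ^ x ≤ R ^ δ * R ^ x := by gcongr
    _ = R ^ (δ + x) := (Real.rpow_add hR0 _ _).symm
    _ ≤ R ^ y := Real.rpow_le_rpow_of_exponent_le hR h

/-- dyadic pigeonhole for four real functions -/
theorem pig (hPGR : T_PGR) {X : Finset (Z 2)} (n : ℕ) (g : Fin 4 → Z 2 → ℝ)
    (hg : ∀ i, ∀ z ∈ X, (2 : ℝ)⁻¹ ^ n ≤ g i z ∧ g i z ≤ 2 ^ n) :
    ∃ (X' : Finset (Z 2)) (v : Fin 4 → ℝ), X' ⊆ X ∧ (∀ i, 0 < v i) ∧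
      (X.card : ℝ) ≤ (2 * (n : ℝ) + 1) ^ 4 * X'.card ∧
      ∀ i, ∀ z ∈ X', v i ≤ g i z ∧ g i z ≤ 2 * v i := by
  have hn : (0 : ℝ) ≤ n := Nat.cast_nonneg n
  obtain ⟨v, X', h1, h2, h3⟩ := iter (α := Z 2) (D := ℝ) (X₀ := X) (Λ := 2 * (n : ℝ) + 1)
    (by linarith) 4
    (fun i v Y => 0 < v ∧ ∀ z ∈ Y, v ≤ g i z ∧ g i z ≤ 2 * v)
    (fun i d Y Y' hY h => ⟨h.1, fun z hz => h.2 z (hY hz)⟩)
    (fun i Y hY => by
      obtain ⟨Y', v, g1, g2, g3, g4⟩ := hPGR (Z 2) n Y (g i) (fun z hz => hg i z (hY hz))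
      exact ⟨v, Y', g1, by exact_mod_cast g3, g2, g4⟩)
    X (Finset.Subset.refl _)
  exact ⟨X', v, h1, fun i => (h3 i).1, h2, fun i => (h3 i).2⟩

section mono

variable {L N : ℕ} {β : E 2 → ℂ} {Ψ : Z 2 → ℂ} {ψ : Z 2 → ℝ} {δ b₀ B ε₀ κ R P A H En : ℝ}
  {G : Fin 4 → Z 2 → ℂ} {c : Fin 4 → E 2} {z₀ : Z 2} {S : Fin 4 → Finset (Pk 2)} {a b : ℝ}
  {l k : ℕ} {QQ : Finset (Zi 2)} {X Y : Finset (Z 2)}

theorem Dat.mono (D : Dat L N β Ψ ψ δ b₀ B ε₀ κ R P A H En G c z₀ S a b l k QQ X) (h : Y ⊆ X) :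
    Dat L N β Ψ ψ δ b₀ B ε₀ κ R P A H En G c z₀ S a b l k QQ Y :=
  { D with
    sep := fun z hz z' hz' hne => D.sep z (h hz) z' (h hz') hne
    ball := fun z hz => D.ball z (h hz)
    cube := fun z hz => D.cube z (h hz)
    FH := fun z hz => D.FH z (h hz) }

open scoped Classical in
theorem Dat.tS1 (D : Dat L N β Ψ ψ δ b₀ B ε₀ κ R P A H En G c z₀ S a b l k QQ X) (i : Fin 4) :
    (((S i).image (tb R)).card : ℝ) * b ≤ (S i).card :=
  card_tb (S i) (tb R) b (fun W hW => by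
    have := (D.tube i W hW).1
    convert this)

open scoped Classical in
theorem Dat.tS2 (D : Dat L N β Ψ ψ δ b₀ B ε₀ κ R P A H En G c z₀ S a b l k QQ X) (i : Fin 4) :
    ((S i).card : ℝ) ≤ ((S i).image (tb R)).card * (2 * b) :=
  card_tb' (S i) (tb R) (2 * b) (fun W hW => by
    have := (D.tube i W hW).2
    convert this)

/-- energy -/
theorem Dat.E1 (D : Dat L N β Ψ ψ δ b₀ B ε₀ κ R P A H En G c z₀ S a b l k QQ X) (i : Fin 4) :
    ((S i).card : ℝ) * a ^ 2 * R ^ 2 ≤ En := by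
  refine le_trans ?_ (D.en i)
  have h1 : ((S i).card : ℝ) * a ^ 2 * R ^ 2 = ∑ _W ∈ S i, a ^ 2 * R ^ 2 := by
    rw [Finset.sum_const, nsmul_eq_mul]; ring
  rw [h1]
  have hR := D.R1
  have ha := D.a0
  refine Finset.sum_le_sum fun W hW => ?_
  have h2 := (D.pk i W hW).2.2.2.2.1
  gcongr

end mono

/-- separated points near representatives -/
theorem near_card (hWT3 : T_WT3) : ∃ C : ℝ, 1 ≤ C ∧ ∀ (w : ℝ) (f : Z 2 → Zi 2)
    (X : Finset (Z 2)) (Q : Zi 2 → Finset (Z 2)), 1 ≤ w → Sep X →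
    (∀ z ∈ X, ∃ x ∈ Q (f z), ‖z - x‖ ≤ w) →
    (X.card : ℝ) ≤ C * w ^ (8 : ℝ) * ∑ j ∈ X.image f, ((Q j).card : ℝ) := by
  classical
  obtain ⟨C, hC, h⟩ := card_sep (m := 2) hWT3
  refine ⟨C, hC, ?_⟩
  intro w f X Q hw hX hQ
  have h1 : X ⊆ (X.image f).biUnion (fun j => (Q j).biUnion (fun x => X.filter (fun z => ‖z - x‖ ≤ w))) := by
    intro z hz
    obtain ⟨x, hx, hzx⟩ := hQ z hz
    simp only [Finset.mem_biUnion, Finset.mem_filter]
    exact ⟨f z, Finset.mem_image_of_mem _ hz, x, hx, hz, hzx⟩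
  have h2 : ∀ x : Z 2, ((X.filter (fun z => ‖z - x‖ ≤ w)).card : ℝ) ≤ C * w ^ (8 : ℝ) := by
    intro x
    have := h w x (X.filter (fun z => ‖z - x‖ ≤ w)) hw
      (fun z hz z' hz' hne => hX z (Finset.mem_filter.1 hz).1 z' (Finset.mem_filter.1 hz').1 hne)
      (fun z hz => (Finset.mem_filter.1 hz).2)
    refine this.trans (le_of_eq ?_)
    norm_num
  calc (X.card : ℝ) ≤ (((X.image f).biUnion (fun j => (Q j).biUnion
        (fun x => X.filter (fun z => ‖z - x‖ ≤ w)))).card : ℝ) := by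
        exact_mod_cast Finset.card_le_card h1
    _ ≤ ∑ j ∈ X.image f, (((Q j).biUnion (fun x => X.filter (fun z => ‖z - x‖ ≤ w))).card : ℝ) := by
        exact_mod_cast Finset.card_biUnion_le
    _ ≤ ∑ j ∈ X.image f, ∑ x ∈ Q j, ((X.filter (fun z => ‖z - x‖ ≤ w)).card : ℝ) := by
        refine Finset.sum_le_sum fun j _ => ?_
        exact_mod_cast Finset.card_biUnion_le
    _ ≤ ∑ j ∈ X.image f, ∑ _x ∈ Q j, C * w ^ (8 : ℝ) := by
        refine Finset.sum_le_sum fun j _ => Finset.sum_le_sum fun x _ => h2 x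
    _ = _ := by
        rw [Finset.mul_sum]
        refine Finset.sum_congr rfl fun j _ => ?_
        rw [Finset.sum_const, nsmul_eq_mul]; ring

end Pool.Agent.H88.B2
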