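import Pool.Agent.H88.B2.ASM1

/-!
MP_ee74d2_an, dimension 3: the two-ends case B2, assembly, second part: the inequalities common to
the two cases.
-/

set_option autoImplicit false

namespace Pool.Agent.H88.B2

open MeasureTheory Set
open Pool.Agent.H83.G Pool.Agent.H83.G.BRO Pool.Agent.H83.G.TEN
open Pool.Agent.H22.G4 (nv Ind)
open scoped ENNReal NNReal RealInnerProductSpace

open scoped Classical in
/-- the inequalities common to the two cases -/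
structure Com (N H q E A L R a b y : ℝ) (M1 M t : Fin 4 → ℝ) : Prop where
  N0 : 0 < N
  H0 : 0 < H
  q0 : 0 < q
  E0 : 0 < E
  A0 : 0 < A
  L1 : 1 ≤ L
  R1 : 1 ≤ R
  a0 : 0 < a
  b1 : 1 ≤ b
  y1 : 1 ≤ y
  M10 : ∀ i, 0 < M1 i
  M0 : ∀ i, 0 < M i
  t0 : ∀ i, 0 < t i
  h1 : ∀ i, t i * b * a ^ 2 * R ≤ L * E
  h2 : E ≤ L * A ^ 2 * R ^ 3
  h3 : a ≤ L * A
  h4 : ∀ i, M1 i ≤ L * M i
  h5 : ∀ i, q * M i ≤ L * y * t i
  h6 : ∏ i, (M i * y) ≤ L * q ^ 3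
  h7 : N * ∏ i, M1 i ≤ L * q * ∏ i, (M i * b)
  h8 : ∀ i, N * H ^ 4 ≤ L * M1 i * a ^ 4 * (t i * b) * R ^ 2
  h9 : N * H ^ (8 / 3 : ℝ) ≤ L * ∏ i, (a ^ 2 * (t i * b) * R) ^ (1 / 3 : ℝ)

theorem Com.caseA {N H q E A L R a b y : ℝ} {M1 M t : Fin 4 → ℝ}
    (h : Com N H q E A L R a b y M1 M t) (hALA : T_ALA) (i₀ : Fin 4)
    (hi : N * M1 i₀ ^ 4 ≤ L * R ^ (1 / 2 : ℝ) * M i₀ * (t i₀ * b) * R ^ 2) :
    N * H ^ (10 / 3 : ℝ) ≤
      L ^ 10 * R ^ (-(1 / 84) : ℝ) * A ^ (4 / 3 : ℝ) * R ^ (4 / 3 : ℝ) * E :=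
  hALA N H q E A L R a b y M1 M t i₀ h.N0 h.H0 h.q0 h.E0 h.A0 h.L1 h.R1 h.a0 h.b1 h.y1 h.M10 h.M0
    h.t0 h.h1 h.h2 h.h3 h.h4 h.h5 h.h6 h.h7 h.h8 h.h9 hi

theorem prod_third (A R : ℝ) (n t : Fin 4 → ℝ) (hA : 0 ≤ A) (hR : 0 ≤ R) (hn : ∀ i, 0 ≤ n i)
    (ht : ∀ i, 0 ≤ t i) (h : ∀ i, n i ≤ 2 * t i) :
    ∏ i, (A * n i * R) ^ (1 / 3 : ℝ) ≤ 16 * ∏ i, (A * t i * R) ^ (1 / 3 : ℝ) := by
  have h1 : ∀ i, (A * n i * R) ^ (1 / 3 : ℝ) ≤ 2 * (A * t i * R) ^ (1 / 3 : ℝ) := by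
    intro i
    have q1 := hn i
    have q2 := ht i
    have e0 : 0 ≤ A * t i * R := by positivity
    have e1 : A * n i * R ≤ 2 * (A * t i * R) := by
      calc A * n i * R ≤ A * (2 * t i) * R := by
            have := h i
            gcongr
        _ = _ := by ring
    calc (A * n i * R) ^ (1 / 3 : ℝ) ≤ (2 * (A * t i * R)) ^ (1 / 3 : ℝ) :=
          Real.rpow_le_rpow (by positivity) e1 (by norm_num)
      _ = 2 ^ (1 / 3 : ℝ) * (A * t i * R) ^ (1 / 3 : ℝ) := Real.mul_rpow (by norm_num) e0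
      _ ≤ 2 * (A * t i * R) ^ (1 / 3 : ℝ) := by
          have e3 : (2 : ℝ) ^ (1 / 3 : ℝ) ≤ 2 := by
            calc (2 : ℝ) ^ (1 / 3 : ℝ) ≤ 2 ^ (1 : ℝ) :=
                  Real.rpow_le_rpow_of_exponent_le (by norm_num) (by norm_num)
              _ = 2 := Real.rpow_one 2
          have e4 : 0 ≤ (A * t i * R) ^ (1 / 3 : ℝ) := Real.rpow_nonneg e0 _
          exact mul_le_mul_of_nonneg_right e3 e4
  calc ∏ i, (A * n i * R) ^ (1 / 3 : ℝ) ≤ ∏ i, (2 * (A * t i * R) ^ (1 / 3 : ℝ)) :=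
        Finset.prod_le_prod (fun i _ => Real.rpow_nonneg (by
          have q1 := hn i
          positivity) _) (fun i _ => h1 i)
    _ = 2 ^ 4 * ∏ i, (A * t i * R) ^ (1 / 3 : ℝ) := by
        rw [Finset.prod_mul_distrib, Finset.prod_const, Finset.card_univ, Fintype.card_fin]
    _ = _ := by norm_num

/-- the exponents -/
theorem expos {μ E₁ E₂ δ ε₀ : ℝ} (hE₁ : 0 ≤ E₁) (hE₂ : 0 ≤ E₂) (hδ : 0 < δ) (hε : 0 < ε₀)
    (hμ : 1 / 1000000 + (E₁ + E₂ + 2 * la + 2000) * (δ + ε₀) ≤ μ) :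
    δ + 400 * δ ≤ μ ∧ δ + δ ≤ μ ∧ δ ≤ μ ∧ δ + (E₂ * (δ + ε₀) + (4 * ε₀ + 12 * δ)) ≤ μ ∧
    9 * δ + (δ + la * (δ + ε₀)) ≤ μ ∧ δ + la * (δ + ε₀) ≤ μ ∧
    δ + (1 / 1000000 + E₁ * ε₀ + la * (δ + ε₀)) ≤ μ ∧ 0 < μ := by
  have hla : la = 100000 := rfl
  have h1 : 0 ≤ E₁ * δ := by positivity
  have h2 : 0 ≤ E₁ * ε₀ := by positivity
  have h3 : 0 ≤ E₂ * δ := by positivity
  have h4 : 0 ≤ E₂ * ε₀ := by positivity
  rw [hla] at hμ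
  rw [hla]
  have h5 : 1 / 1000000 + (E₁ * δ + E₁ * ε₀ + (E₂ * δ + E₂ * ε₀) + 202000 * δ + 202000 * ε₀) ≤ μ := by
    calc _ = 1 / 1000000 + (E₁ + E₂ + 2 * 100000 + 2000) * (δ + ε₀) := by ring
      _ ≤ μ := hμ
  refine ⟨by linarith, by linarith, by linarith, ?_, by linarith, by linarith, by linarith,
    by linarith⟩
  have : E₂ * (δ + ε₀) = E₂ * δ + E₂ * ε₀ := by ring
  linarith

section

variable {L N : ℕ} {β : E 2 → ℂ} {Ψ : Z 2 → ℂ} {ψ : Z 2 → ℝ} {δ b₀ B ε₀ κ R P A H En : ℝ}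
  {G : Fin 4 → Z 2 → ℂ} {c : Fin 4 → E 2} {z₀ : Z 2} {S : Fin 4 → Finset (Pk 2)} {a b : ℝ}
  {l k : ℕ} {QQ : Finset (Zi 2)} {X Y : Finset (Z 2)}

open scoped Classical in
theorem com_of (μ E₂ CK CM CW CS CU CA CR E₁ : ℝ) (M M1 : Fin 4 → ℝ)
    (D : Dat L N β Ψ ψ δ b₀ B ε₀ κ R P A H En G c z₀ S a b l k QQ Y) (hY : Y.Nonempty)
    (hE₁ : 0 ≤ E₁) (hE₂ : 0 ≤ E₂)
    (hμ : 1 / 1000000 + (E₁ + E₂ + 2 * la + 2000) * (δ + ε₀) ≤ μ)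
    (hcK : 16 * CK ≤ R ^ δ) (hcM : 16 * CM ≤ R ^ δ) (hcW : CW ≤ R ^ δ)
    (hcS : 16 * CS ≤ R ^ δ) (hcU : 16 * CU ≤ R ^ δ) (hcA : CA ≤ R ^ δ) (hcR : 16 * CR ≤ R ^ δ)
    (hcB : 16 * B ≤ R ^ δ) (h16 : 16 ≤ R ^ δ) (hCS0 : 0 ≤ CS) (hCR0 : 0 ≤ CR) (hCM0 : 0 ≤ CM)
    (hM : ∀ i, 0 < M i) (hM1 : ∀ i, 0 < M1 i)
    (hMt : ∀ i, ∀ z ∈ Y, M i ≤ (Mt R δ ε₀ l k QQ (S i) z : ℝ) ∧
      (Mt R δ ε₀ l k QQ (S i) z : ℝ) ≤ 2 * M i)
    (hNd : ∀ i, ∀ z ∈ Y, M1 i ≤ Nd N R δ (R ^ δ) (Sz R δ ε₀ l k QQ (S i) z) z ∧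
      Nd N R δ (R ^ δ) (Sz R δ ε₀ l k QQ (S i) z) z ≤ 2 * M1 i)
    (hDA : a ≤ CA * A ∧ ∀ z ∈ Y, ∀ i, 1 ≤ Mt R δ ε₀ l k QQ (S i) z ∧
      R ^ (-(10 * δ)) ≤ Nd N R δ (R ^ δ) (Sz R δ ε₀ l k QQ (S i) z) z)
    (hDRD : ∀ (M₁ : ℝ) (i : Fin 4), R ^ (-(20 * δ)) ≤ M₁ →
      (∀ z ∈ Y, Nd N R δ (R ^ δ) (Sz R δ ε₀ l k QQ (S i) z) z ≤ 2 * M₁) →
      (Y.card : ℝ) * H ^ 4 ≤ CR * R ^ (la * (δ + ε₀)) * M₁ * a ^ 4 * (S i).card * R ^ 2)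
    (hDML : (Y.card : ℝ) * H ^ (8 / 3 : ℝ) ≤
      CM * R ^ (1 / 1000000 + E₁ * ε₀ + la * (δ + ε₀)) *
        ∏ i, (a ^ 2 * (S i).card * R) ^ (1 / 3 : ℝ))
    (hDMU : ∀ (w M : ℝ) (i : Fin 4), R ^ δ ≤ w → w ≤ Real.sqrt R → 1 ≤ 2 * M →
      (∀ z ∈ Y, (Mt R δ ε₀ l k QQ (S i) z : ℝ) ≤ 2 * M) →
      ∀ z ∈ Y, Nd N R δ w (Sz R δ ε₀ l k QQ (S i) z) z ≤ CU * w * M ∧
        Nd N R δ w (Sz R δ ε₀ l k QQ (S i) z) z ≤ CU * M * b)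
    (hDLW : ∀ (w : ℝ) (M D : Fin 4 → ℝ), R ^ δ ≤ w → w ≤ Real.sqrt R →
      (∀ i, 0 < M i ∧ R ^ (-(1 / 2) : ℝ) ≤ w * D i) →
      (∀ z ∈ Y, ∀ i, (Mt R δ ε₀ l k QQ (S i) z : ℝ) ≤ 2 * M i ∧
        w * D i ≤ Nd N R δ w (Sz R δ ε₀ l k QQ (S i) z) z) →
      ∃ Q : Zi 2 → Finset (Z 2), (∀ j, Q j ⊆ Y ∧ Sepw w (Q j) ∧ (∀ x ∈ Q j, Bz R ε₀ x = j) ∧
        ∀ z ∈ Y, Bz R ε₀ z = j → ∃ x ∈ Q j, ‖z - x‖ ≤ w) ∧
      (∑ j ∈ Y.image (Bz R ε₀), ((Q j).card : ℝ)) * ∏ i, (w * D i) ≤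
        CW * R ^ (la * (δ + ε₀)) * (Y.image (cb (Real.sqrt R))).card * ∏ i, (M i * b))
    (hnear : ∀ (w : ℝ) (f : Z 2 → Zi 2) (X : Finset (Z 2)) (Q : Zi 2 → Finset (Z 2)), 1 ≤ w →
      Sep X → (∀ z ∈ X, ∃ x ∈ Q (f z), ‖z - x‖ ≤ w) →
      (X.card : ℝ) ≤ CS * w ^ (8 : ℝ) * ∑ j ∈ X.image f, ((Q j).card : ℝ))
    (hDKS : ∃ y : ℝ, 1 ≤ y ∧ (∀ i, ((Y.image (cb (Real.sqrt R))).card : ℝ) * M i ≤
      4 * y * ((S i).image (tb R)).card) ∧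
      ∏ i, (M i * y) ≤ CK * R ^ (E₂ * (δ + ε₀)) * (R ^ (ε₀ + 3 * δ)) ^ 4 *
        ((Y.image (cb (Real.sqrt R))).card : ℝ) ^ 3) :
    ∃ y : ℝ, Com (Y.card : ℝ) H ((Y.image (cb (Real.sqrt R))).card : ℝ) (En / R) A (R ^ μ) R a b y
      M1 M (fun i => (((S i).image (tb R)).card : ℝ)) := by
  have hR := D.R1
  have hR0 : 0 < R := by linarith
  have hδ := D.d0
  have hε := D.e0
  have hb := D.b1
  have ha := D.a0
  have hA := D.A0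
  have hH := D.H0
  have hEn := D.En0
  obtain ⟨z₁, hz₁⟩ := hY
  have hYc : (1 : ℝ) ≤ Y.card := by exact_mod_cast Finset.card_pos.2 ⟨z₁, hz₁⟩
  have hB := D.B1
  obtain ⟨x1, x2, x3, x4, x5, x6, x7, x8⟩ := expos hE₁ hE₂ hδ hε hμ
  clear hμ
  obtain ⟨y, hy1, hy2, hy3⟩ := hDKS
  have hqN : (Y.image (cb (Real.sqrt R))).Nonempty := ⟨_, Finset.mem_image_of_mem _ hz₁⟩
  have hq : (1 : ℝ) ≤ (Y.image (cb (Real.sqrt R))).card := by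
    exact_mod_cast Finset.card_pos.2 hqN
  have hMh : ∀ i, 1 ≤ 2 * M i := by
    intro i
    have h1 := (hDA.2 z₁ hz₁ i).1
    have h2 := (hMt i z₁ hz₁).2
    have h3 : (1 : ℝ) ≤ (Mt R δ ε₀ l k QQ (S i) z₁ : ℝ) := by exact_mod_cast h1
    linarith
  have ht : ∀ i, 0 < (((S i).image (tb R)).card : ℝ) := by
    intro i
    by_contra hcon
    have h0 : (((S i).image (tb R)).card : ℝ) = 0 :=
      le_antisymm (not_lt.1 hcon) (Nat.cast_nonneg _)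
    have h1 := hy2 i
    rw [h0, mul_zero] at h1
    have h2 : 0 < ((Y.image (cb (Real.sqrt R))).card : ℝ) * M i :=
      mul_pos (by linarith) (hM i)
    linarith
  have hS2 : ∀ i, ((S i).card : ℝ) ≤ 2 * ((((S i).image (tb R)).card : ℝ) * b) := by
    intro i
    have := D.tS2 i
    linarith
  have hM1low : ∀ i, R ^ (-(20 * δ)) ≤ M1 i := by
    intro i
    have h1 := (hDA.2 z₁ hz₁ i).2
    have h2 := (hNd i z₁ hz₁).2
    have h3 : 2 * R ^ (-(20 * δ)) ≤ R ^ (-(10 * δ)) :=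
      absb (δ := δ) hR (by linarith) (by linarith)
    linarith
  have hsq : R ^ δ ≤ Real.sqrt R := by
    rw [Real.sqrt_eq_rpow]
    exact Real.rpow_le_rpow_of_exponent_le hR (by have := D.d1; linarith)
  have hRδ1 : 1 ≤ R ^ δ := by linarith
  refine ⟨y, ?_⟩
  refine ⟨by linarith, hH, by linarith, by positivity, hA, Real.one_le_rpow hR x8.le, hR,
    ha, hb, hy1, hM1, hM, ht, ?_, ?_, ?_, ?_, ?_, ?_, ?_, ?_, ?_⟩
  · -- h1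
    intro i
    have h1 := D.tS1 i
    have h2 := D.E1 i
    have h3 : (((S i).image (tb R)).card : ℝ) * b * a ^ 2 * R ≤ En / R := by
      rw [le_div_iff₀ hR0]
      calc (((S i).image (tb R)).card : ℝ) * b * a ^ 2 * R * R
          ≤ (S i).card * a ^ 2 * R * R := by gcongr
        _ = (S i).card * a ^ 2 * R ^ 2 := by ring
        _ ≤ En := h2
    have h4 : 1 ≤ R ^ μ := Real.one_le_rpow hR x8.le
    have h5 : 0 < En / R := by positivity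
    exact h3.trans (le_mul_of_one_le_left h5.le h4)
  · -- h2
    have h1 := D.En1
    have h2 : B * R ^ (lo 2 * δ) ≤ R ^ μ := by
      refine absb (δ := δ) hR (by linarith) ?_
      have e1 : lo 2 = 400 := by unfold lo; norm_num
      rw [e1]
      exact x1
    rw [div_le_iff₀ hR0]
    calc En ≤ B * R ^ (lo 2 * δ) * (A ^ 2 * R ^ (4 : ℝ)) := h1
      _ ≤ R ^ μ * (A ^ 2 * R ^ (4 : ℝ)) := by gcongr
      _ = _ := by
        have : R ^ (4 : ℝ) = R ^ 4 := by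
          rw [show (4 : ℝ) = ((4 : ℕ) : ℝ) by norm_num, Real.rpow_natCast]
        rw [this]; ring
  · -- h3
    refine hDA.1.trans ?_
    have : CA ≤ R ^ μ := hcA.trans (Real.rpow_le_rpow_of_exponent_le hR x3)
    gcongr
  · -- h4
    intro i
    have h1 := (hDMU (R ^ δ) (M i) i le_rfl hsq (hMh i) (fun z hz => (hMt i z hz).2) z₁ hz₁).1
    have h2 := (hNd i z₁ hz₁).1
    have h3 : CU * R ^ δ ≤ R ^ μ := absb (δ := δ) hR (by linarith) x2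
    calc M1 i ≤ CU * R ^ δ * M i := h2.trans h1
      _ ≤ R ^ μ * M i := by
        have := (hM i).le
        gcongr
  · -- h5
    intro i
    refine (hy2 i).trans ?_
    have h3 : (4 : ℝ) ≤ R ^ μ := by
      have : R ^ δ ≤ R ^ μ := Real.rpow_le_rpow_of_exponent_le hR x3
      linarith
    have := (ht i).le
    gcongr
  · -- h6
    refine hy3.trans ?_
    have h1 : (R ^ (ε₀ + 3 * δ)) ^ 4 = R ^ (4 * ε₀ + 12 * δ) := by
      rw [← Real.rpow_natCast, ← Real.rpow_mul hR0.le]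
      congr 1
      push_cast
      ring
    have h2 : CK * R ^ (E₂ * (δ + ε₀)) * R ^ (4 * ε₀ + 12 * δ) ≤ R ^ μ := by
      rw [mul_assoc, ← Real.rpow_add hR0]
      exact absb (δ := δ) hR (by linarith) x4
    rw [h1]
    gcongr
  · -- h7
    obtain ⟨Q, hQ1, hQ2⟩ := hDLW (R ^ δ) M (fun i => M1 i / R ^ δ) le_rfl hsq
      (fun i => ⟨hM i, by
        rw [mul_div_cancel₀ _ (by positivity)]
        refine le_trans ?_ (hM1low i)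
        exact Real.rpow_le_rpow_of_exponent_le hR (by have := D.d1; linarith)⟩)
      (fun z hz i => ⟨(hMt i z hz).2, by
        rw [mul_div_cancel₀ _ (by positivity)]
        exact (hNd i z hz).1⟩)
    have h1 : (Y.card : ℝ) ≤ CS * (R ^ δ) ^ (8 : ℝ) *
        ∑ j ∈ Y.image (Bz R ε₀), ((Q j).card : ℝ) :=
      hnear (R ^ δ) (Bz R ε₀) Y Q hRδ1 D.sep (fun z hz => (hQ1 (Bz R ε₀ z)).2.2.2 z hz rfl)
    have h2 : ∀ i, R ^ δ * (M1 i / R ^ δ) = M1 i := fun i => mul_div_cancel₀ _ (by positivity)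
    simp only [h2] at hQ2
    have h3 : 0 < ∏ i, M1 i := Finset.prod_pos fun i _ => hM1 i
    have h4 : (R ^ δ) ^ (8 : ℝ) = R ^ (8 * δ) := by
      rw [← Real.rpow_mul hR0.le]; congr 1; ring
    rw [h4] at h1
    have hMb : 0 ≤ ∏ i, (M i * b) :=
      Finset.prod_nonneg fun i _ => mul_nonneg (hM i).le (by linarith)
    have h5 : CS * R ^ (8 * δ) * (CW * R ^ (la * (δ + ε₀))) ≤ R ^ μ := by
      have e1 : CS * R ^ (8 * δ) ≤ R ^ (9 * δ) := absb (δ := δ) hR (by linarith) (by linarith)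
      have e2 : CW * R ^ (la * (δ + ε₀)) ≤ R ^ (δ + la * (δ + ε₀)) :=
        absb (δ := δ) hR hcW le_rfl
      have e3 : 0 ≤ CS * R ^ (8 * δ) := by positivity
      calc CS * R ^ (8 * δ) * (CW * R ^ (la * (δ + ε₀)))
          ≤ CS * R ^ (8 * δ) * R ^ (δ + la * (δ + ε₀)) := by gcongr
        _ ≤ R ^ (9 * δ) * R ^ (δ + la * (δ + ε₀)) := by gcongr
        _ = R ^ (9 * δ + (δ + la * (δ + ε₀))) := (Real.rpow_add hR0 _ _).symm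
        _ ≤ R ^ μ := Real.rpow_le_rpow_of_exponent_le hR x5
    have e3 : 0 ≤ CS * R ^ (8 * δ) := by positivity
    calc (Y.card : ℝ) * ∏ i, M1 i
        ≤ (CS * R ^ (8 * δ) * ∑ j ∈ Y.image (Bz R ε₀), ((Q j).card : ℝ)) * ∏ i, M1 i := by
          gcongr
      _ = CS * R ^ (8 * δ) * ((∑ j ∈ Y.image (Bz R ε₀), ((Q j).card : ℝ)) * ∏ i, M1 i) := by ring
      _ ≤ CS * R ^ (8 * δ) * (CW * R ^ (la * (δ + ε₀)) *
          (Y.image (cb (Real.sqrt R))).card * ∏ i, (M i * b)) := by gcongr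
      _ = (CS * R ^ (8 * δ) * (CW * R ^ (la * (δ + ε₀)))) *
          ((Y.image (cb (Real.sqrt R))).card * ∏ i, (M i * b)) := by ring
      _ ≤ R ^ μ * ((Y.image (cb (Real.sqrt R))).card * ∏ i, (M i * b)) := by gcongr
      _ = _ := by ring
  · -- h8
    intro i
    have h1 := hDRD (M1 i) i (hM1low i) (fun z hz => (hNd i z hz).2)
    have hM1i := (hM1 i).le
    have h2 : 2 * CR * R ^ (la * (δ + ε₀)) ≤ R ^ μ := absb (δ := δ) hR (by linarith) x6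
    have h0 : 0 ≤ M1 i * a ^ 4 * ((((S i).image (tb R)).card : ℝ) * b) * R ^ 2 := by
      have := (ht i).le
      have hb0 : 0 ≤ b := by linarith
      positivity
    calc (Y.card : ℝ) * H ^ 4 ≤ CR * R ^ (la * (δ + ε₀)) * M1 i * a ^ 4 * (S i).card * R ^ 2 := h1
      _ ≤ CR * R ^ (la * (δ + ε₀)) * M1 i * a ^ 4 *
          (2 * ((((S i).image (tb R)).card : ℝ) * b)) * R ^ 2 := by
          gcongr
          exact hS2 i
      _ = (2 * CR * R ^ (la * (δ + ε₀))) *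
          (M1 i * a ^ 4 * ((((S i).image (tb R)).card : ℝ) * b) * R ^ 2) := by ring
      _ ≤ R ^ μ * (M1 i * a ^ 4 * ((((S i).image (tb R)).card : ℝ) * b) * R ^ 2) := by gcongr
      _ = _ := by ring
  · -- h9
    have hb0 : 0 ≤ b := by linarith
    have h1 : ∏ i, (a ^ 2 * (S i).card * R) ^ (1 / 3 : ℝ) ≤
        16 * ∏ i, (a ^ 2 * ((((S i).image (tb R)).card : ℝ) * b) * R) ^ (1 / 3 : ℝ) :=
      prod_third (a ^ 2) R (fun i => ((S i).card : ℝ))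
        (fun i => (((S i).image (tb R)).card : ℝ) * b) (by positivity) hR0.le
        (fun i => Nat.cast_nonneg _) (fun i => mul_nonneg (ht i).le hb0) hS2
    have hP0 : 0 ≤ ∏ i, (a ^ 2 * ((((S i).image (tb R)).card : ℝ) * b) * R) ^ (1 / 3 : ℝ) :=
      Finset.prod_nonneg fun i _ => by positivity
    have hP1 : 0 ≤ ∏ i, (a ^ 2 * (S i).card * R) ^ (1 / 3 : ℝ) :=
      Finset.prod_nonneg fun i _ => by positivity
    have h2 : 16 * CM * R ^ (1 / 1000000 + E₁ * ε₀ + la * (δ + ε₀)) ≤ R ^ μ :=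
      absb (δ := δ) hR (by linarith) x7
    calc (Y.card : ℝ) * H ^ (8 / 3 : ℝ)
        ≤ CM * R ^ (1 / 1000000 + E₁ * ε₀ + la * (δ + ε₀)) *
          ∏ i, (a ^ 2 * (S i).card * R) ^ (1 / 3 : ℝ) := hDML
      _ ≤ CM * R ^ (1 / 1000000 + E₁ * ε₀ + la * (δ + ε₀)) *
          (16 * ∏ i, (a ^ 2 * ((((S i).image (tb R)).card : ℝ) * b) * R) ^ (1 / 3 : ℝ)) := by
          gcongr
      _ = (16 * CM * R ^ (1 / 1000000 + E₁ * ε₀ + la * (δ + ε₀))) *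
          ∏ i, (a ^ 2 * ((((S i).image (tb R)).card : ℝ) * b) * R) ^ (1 / 3 : ℝ) := by ring
      _ ≤ _ := by gcongr

end

end Pool.Agent.H88.B2
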