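import Pool.Agent.H88.B2.ASM2

/-!
MP_ee74d2_an, dimension 3: the two-ends case B2, assembly, third part: cases A and B on a set `Y`.
-/

set_option autoImplicit false

namespace Pool.Agent.H88.B2

open MeasureTheory Set
open Pool.Agent.H83.G Pool.Agent.H83.G.BRO Pool.Agent.H83.G.TEN
open Pool.Agent.H22.G4 (nv Ind)
open scoped ENNReal NNReal RealInnerProductSpace

section

variable {L N : ℕ} {β : E 2 → ℂ} {Ψ : Z 2 → ℂ} {ψ : Z 2 → ℝ} {δ b₀ B ε₀ κ R P A H En : ℝ}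
  {G : Fin 4 → Z 2 → ℂ} {c : Fin 4 → E 2} {z₀ : Z 2} {S : Fin 4 → Finset (Pk 2)} {a b : ℝ}
  {l k : ℕ} {QQ : Finset (Zi 2)} {X Y : Finset (Z 2)}

theorem rw8 {R : ℝ} (hR : 1 ≤ R) : (R ^ (1 / 8 : ℝ)) ^ 4 = R ^ (1 / 2 : ℝ) := by
  rw [← Real.rpow_natCast, ← Real.rpow_mul (by linarith)]; norm_num

theorem rw8' {R : ℝ} (hR : 1 ≤ R) : (R ^ (1 / 8 : ℝ)) ^ 2 = R ^ (1 / 4 : ℝ) := by
  rw [← Real.rpow_natCast, ← Real.rpow_mul (by linarith)]; norm_num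

theorem rw4 {R : ℝ} (hR : 1 ≤ R) : (R ^ (1 / 4 : ℝ)) ^ 4 = R := by
  rw [← Real.rpow_natCast, ← Real.rpow_mul (by linarith)]; norm_num

theorem rw4' {R : ℝ} (hR : 1 ≤ R) : (R ^ (1 / 4 : ℝ)) ^ 2 = Real.sqrt R := by
  rw [Real.sqrt_eq_rpow, ← Real.rpow_natCast, ← Real.rpow_mul (by linarith)]; norm_num

open scoped Classical in
/-- case A -/
theorem caseA (μ CH y : ℝ) (M M1 : Fin 4 → ℝ) (i₀ : Fin 4) (hALA : T_ALA)
    (D : Dat L N β Ψ ψ δ b₀ B ε₀ κ R P A H En G c z₀ S a b l k QQ Y)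
    (hC : Com (Y.card : ℝ) H ((Y.image (cb (Real.sqrt R))).card : ℝ) (En / R) A (R ^ μ) R a b y
      M1 M (fun i => (((S i).image (tb R)).card : ℝ)))
    (hx : δ + la * (δ + ε₀) ≤ μ) (hcH : 16 * CH ≤ R ^ δ) (hCH0 : 0 ≤ CH)
    (hDHL : (Y.card : ℝ) * M1 i₀ ^ 4 ≤
      CH * R ^ (la * (δ + ε₀)) * R ^ (1 / 2 : ℝ) * M i₀ * (S i₀).card * R ^ 2) :
    (Y.card : ℝ) * H ^ (10 / 3 : ℝ) ≤
      (R ^ μ) ^ 10 * R ^ (-(1 / 84) : ℝ) * A ^ (4 / 3 : ℝ) * R ^ (4 / 3 : ℝ) * (En / R) := by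
  have hR := D.R1
  have hR0 : 0 < R := by linarith
  refine hC.caseA hALA i₀ ?_
  refine hDHL.trans ?_
  have hS2 : ((S i₀).card : ℝ) ≤ 2 * ((((S i₀).image (tb R)).card : ℝ) * b) := by
    have := D.tS2 i₀
    linarith
  have hM := (hC.M0 i₀).le
  have h2 : 2 * CH * R ^ (la * (δ + ε₀)) ≤ R ^ μ := absb (δ := δ) hR (by linarith) hx
  have ht : 0 ≤ (((S i₀).image (tb R)).card : ℝ) := Nat.cast_nonneg _
  have hb0 : 0 ≤ b := by have := D.b1; linarith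
  calc CH * R ^ (la * (δ + ε₀)) * R ^ (1 / 2 : ℝ) * M i₀ * (S i₀).card * R ^ 2
      ≤ CH * R ^ (la * (δ + ε₀)) * R ^ (1 / 2 : ℝ) * M i₀ *
        (2 * ((((S i₀).image (tb R)).card : ℝ) * b)) * R ^ 2 := by gcongr
    _ = (2 * CH * R ^ (la * (δ + ε₀))) * (R ^ (1 / 2 : ℝ) * M i₀ *
        ((((S i₀).image (tb R)).card : ℝ) * b) * R ^ 2) := by ring
    _ ≤ R ^ μ * (R ^ (1 / 2 : ℝ) * M i₀ *
        ((((S i₀).image (tb R)).card : ℝ) * b) * R ^ 2) := by gcongr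
    _ = _ := by ring

theorem alge {x C l m D a n t R V w d c1 c2 : ℝ}
    (h : x ≤ C * l * (c1 * D) * a ^ 4 * n * R ^ 2 * (V * w * (c2 * d))) (hn : n ≤ 2 * t)
    (hm : 2 * c1 * c2 * C * l ≤ m) (hC : 0 ≤ C) (hl : 0 ≤ l) (hc1 : 0 ≤ c1) (hc2 : 0 ≤ c2)
    (hD : 0 ≤ D) (hV : 0 ≤ V) (hw : 0 ≤ w) (hd : 0 ≤ d) (ht : 0 ≤ t) :
    x ≤ m * D * a ^ 4 * t * R ^ 2 * (V * w * d) := by
  calc x ≤ C * l * (c1 * D) * a ^ 4 * n * R ^ 2 * (V * w * (c2 * d)) := h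
    _ ≤ C * l * (c1 * D) * a ^ 4 * (2 * t) * R ^ 2 * (V * w * (c2 * d)) := by gcongr
    _ = (2 * c1 * c2 * C * l) * (D * a ^ 4 * t * R ^ 2 * (V * w * d)) := by ring
    _ ≤ m * (D * a ^ 4 * t * R ^ 2 * (V * w * d)) := by gcongr
    _ = _ := by ring

theorem prod4 (w : ℝ) (D : Fin 4 → ℝ) : ∏ i, (w * D i) = w ^ 4 * ∏ i, D i := by
  rw [Finset.prod_mul_distrib, Finset.prod_const, Finset.card_univ, Fintype.card_fin]

open scoped Classical in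
/-- case B -/
theorem caseB (μ CW C2 CU y : ℝ) (M M1 v0 v1 : Fin 4 → ℝ) (hALB : T_ALB)
    (D : Dat L N β Ψ ψ δ b₀ B ε₀ κ R P A H En G c z₀ S a b l k QQ Y)
    (hC : Com (Y.card : ℝ) H ((Y.image (cb (Real.sqrt R))).card : ℝ) (En / R) A (R ^ μ) R a b y
      M1 M (fun i => (((S i).image (tb R)).card : ℝ)))
    (hx : δ + la * (δ + ε₀) ≤ μ)
    (hcW : CW ≤ R ^ δ) (hc2 : 16 * C2 ≤ R ^ δ)
    (hc2U : 16 * C2 * CU ≤ R ^ δ) (hCU1 : 1 ≤ CU) (hCUB : 16 * CU * B ≤ R ^ δ)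
    (hC20 : 0 ≤ C2)
    (hMt : ∀ i, ∀ z ∈ Y, M i ≤ (Mt R δ ε₀ l k QQ (S i) z : ℝ) ∧
      (Mt R δ ε₀ l k QQ (S i) z : ℝ) ≤ 2 * M i)
    (hMh : ∀ i, 1 ≤ 2 * M i)
    (hv0 : ∀ i, 0 < v0 i) (hv1 : ∀ i, 0 < v1 i)
    (hN0 : ∀ i, ∀ z ∈ Y, v0 i ≤ Nd N R δ (R ^ (1 / 8 : ℝ)) (Sz R δ ε₀ l k QQ (S i) z) z ∧
      Nd N R δ (R ^ (1 / 8 : ℝ)) (Sz R δ ε₀ l k QQ (S i) z) z ≤ 2 * v0 i)
    (hN1 : ∀ i, ∀ z ∈ Y, v1 i ≤ Nd N R δ (R ^ (1 / 4 : ℝ)) (Sz R δ ε₀ l k QQ (S i) z) z ∧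
      Nd N R δ (R ^ (1 / 4 : ℝ)) (Sz R δ ε₀ l k QQ (S i) z) z ≤ 2 * v1 i)
    (hv0l : ∀ i, R ^ (-(1 / 2) : ℝ) ≤ v0 i) (hv1l : ∀ i, R ^ (-(1 / 2) : ℝ) ≤ v1 i)
    (hv1u : ∀ i, v1 i ≤ R ^ (9 : ℝ))
    (hlow : ∀ i, M1 i ≤ R ^ μ * (v0 i / R ^ (1 / 8 : ℝ)))
    (hDMU : ∀ (w M : ℝ) (i : Fin 4), R ^ δ ≤ w → w ≤ Real.sqrt R → 1 ≤ 2 * M →
      (∀ z ∈ Y, (Mt R δ ε₀ l k QQ (S i) z : ℝ) ≤ 2 * M) →
      ∀ z ∈ Y, Nd N R δ w (Sz R δ ε₀ l k QQ (S i) z) z ≤ CU * w * M ∧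
        Nd N R δ w (Sz R δ ε₀ l k QQ (S i) z) z ≤ CU * M * b)
    (hDLW : ∀ (w : ℝ) (M D : Fin 4 → ℝ), R ^ δ ≤ w → w ≤ Real.sqrt R →
      (∀ i, 0 < M i ∧ R ^ (-(1 / 2) : ℝ) ≤ w * D i) →
      (∀ z ∈ Y, ∀ i, (Mt R δ ε₀ l k QQ (S i) z : ℝ) ≤ 2 * M i ∧
        w * D i ≤ Nd N R δ w (Sz R δ ε₀ l k QQ (S i) z) z) →
      ∃ Q : Zi 2 → Finset (Z 2), (∀ j, Q j ⊆ Y ∧ Sepw w (Q j) ∧ (∀ x ∈ Q j, Bz R ε₀ x = j) ∧
        ∀ z ∈ Y, Bz R ε₀ z = j → ∃ x ∈ Q j, ‖z - x‖ ≤ w) ∧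
      (∑ j ∈ Y.image (Bz R ε₀), ((Q j).card : ℝ)) * ∏ i, (w * D i) ≤
        CW * R ^ (la * (δ + ε₀)) * (Y.image (cb (Real.sqrt R))).card * ∏ i, (M i * b))
    (hDL2 : ∀ (w D₁ D₂ D₃ : ℝ) (i j : Fin 4) (Q : Zi 2 → Finset (Z 2)), i ≠ j →
      R ^ (1 / 16 : ℝ) ≤ w →
      w ^ 2 ≤ Real.sqrt R → R ^ (-(10 : ℝ)) ≤ D₁ → R ^ (-(10 : ℝ)) ≤ D₂ → 0 < D₃ →
      D₃ ≤ R ^ (10 : ℝ) →
      (∀ z ∈ Y, Nd N R δ w (Sz R δ ε₀ l k QQ (S i) z) z ≤ w * D₁ ∧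
        w * D₂ ≤ Nd N R δ w (Sz R δ ε₀ l k QQ (S j) z) z ∧
        Nd N R δ (w ^ 2) (Sz R δ ε₀ l k QQ (S j) z) z ≤ w ^ 2 * D₃) →
      (∀ j, Q j ⊆ Y ∧ Sepw w (Q j) ∧ (∀ x ∈ Q j, Bz R ε₀ x = j) ∧
        ∀ z ∈ Y, Bz R ε₀ z = j → ∃ x ∈ Q j, ‖z - x‖ ≤ w) →
      ((Y.card : ℝ) * H ^ 2) ^ 2 ≤ C2 * R ^ (la * (δ + ε₀)) * (D₃ / D₂) * a ^ 4 * (S i).card *
        R ^ 2 * ((∑ j ∈ Y.image (Bz R ε₀), ((Q j).card : ℝ)) * w ^ 4 * D₁)) :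
    (Y.card : ℝ) * H ^ (10 / 3 : ℝ) ≤
      (R ^ μ) ^ 10 * R ^ (-(1 / 1164) : ℝ) * A ^ (4 / 3 : ℝ) * R ^ (4 / 3 : ℝ) * (En / R) := by
  have hR := D.R1
  have hR0 : 0 < R := by linarith
  have hδ := D.d0
  have hδ1 := D.d1
  have hb := D.b1
  have ha := D.a0
  have hB := D.B1
  have hw0 : 0 < R ^ (1 / 8 : ℝ) := by positivity
  have hw1 : 0 < R ^ (1 / 4 : ℝ) := by positivity
  have hexp : ∀ {x y : ℝ}, x ≤ y → R ^ x ≤ R ^ y := fun h =>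
    Real.rpow_le_rpow_of_exponent_le hR h
  have hsq : Real.sqrt R = R ^ (1 / 2 : ℝ) := Real.sqrt_eq_rpow R
  have hM0 : ∀ i, 0 < M i := hC.M0
  have hYne : Y.Nonempty := by
    rw [← Finset.card_pos]
    exact_mod_cast hC.N0
  obtain ⟨z₁, hz₁⟩ := hYne
  -- representatives
  obtain ⟨Q0, hQ0, hV0⟩ := hDLW (R ^ (1 / 8 : ℝ)) M (fun i => v0 i / R ^ (1 / 8 : ℝ))
    (hexp (by linarith)) (by rw [hsq]; exact hexp (by norm_num))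
    (fun i => ⟨hM0 i, by rw [mul_div_cancel₀ _ hw0.ne']; exact hv0l i⟩)
    (fun z hz i => ⟨(hMt i z hz).2, by rw [mul_div_cancel₀ _ hw0.ne']; exact (hN0 i z hz).1⟩)
  obtain ⟨Q1, hQ1, hV1⟩ := hDLW (R ^ (1 / 4 : ℝ)) M (fun i => v1 i / R ^ (1 / 4 : ℝ))
    (hexp (by linarith)) (by rw [hsq]; exact hexp (by norm_num))
    (fun i => ⟨hM0 i, by rw [mul_div_cancel₀ _ hw1.ne']; exact hv1l i⟩)
    (fun z hz i => ⟨(hMt i z hz).2, by rw [mul_div_cancel₀ _ hw1.ne']; exact (hN1 i z hz).1⟩)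
  set V0 : ℝ := ∑ j ∈ Y.image (Bz R ε₀), ((Q0 j).card : ℝ) with hV0d
  set V1 : ℝ := ∑ j ∈ Y.image (Bz R ε₀), ((Q1 j).card : ℝ) with hV1d
  have hVpos : ∀ (Q : Zi 2 → Finset (Z 2)) (w : ℝ), (∀ j, Q j ⊆ Y ∧ Sepw w (Q j) ∧
      (∀ x ∈ Q j, Bz R ε₀ x = j) ∧ ∀ z ∈ Y, Bz R ε₀ z = j → ∃ x ∈ Q j, ‖z - x‖ ≤ w) →
      1 ≤ ∑ j ∈ Y.image (Bz R ε₀), ((Q j).card : ℝ) := by
    intro Q w hQ
    obtain ⟨x, hx, -⟩ := (hQ (Bz R ε₀ z₁)).2.2.2 z₁ hz₁ rfl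
    have e1 : (1 : ℝ) ≤ (Q (Bz R ε₀ z₁)).card := by
      exact_mod_cast Finset.card_pos.2 ⟨x, hx⟩
    exact e1.trans (Finset.single_le_sum (f := fun j => ((Q j).card : ℝ))
      (fun _ _ => Nat.cast_nonneg _) (Finset.mem_image_of_mem _ hz₁))
  have hV0p : 1 ≤ V0 := hVpos Q0 _ hQ0
  have hV1p : 1 ≤ V1 := hVpos Q1 _ hQ1
  have hla1 : CW * R ^ (la * (δ + ε₀)) ≤ R ^ μ := absb (δ := δ) hR hcW hx
  have hMb : 0 ≤ ∏ i, (M i * b) :=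
    Finset.prod_nonneg fun i _ => mul_nonneg (hM0 i).le (by linarith)
  have hS2 : ∀ i, ((S i).card : ℝ) ≤ 2 * ((((S i).image (tb R)).card : ℝ) * b) := by
    intro i
    have := D.tS2 i
    linarith
  have hij : ∀ i : Fin 4, i ≠ i + 1 := by decide
  have hb0 : 0 ≤ b := by linarith
  have h10 : ∀ {x y : ℝ}, 0 < y → R ^ (-(1 / 2) : ℝ) ≤ x → y ≤ R → R ^ (-(10 : ℝ)) ≤ x / y := by
    intro x y hy hx hyR
    rw [le_div_iff₀ hy]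
    calc R ^ (-(10 : ℝ)) * y ≤ R ^ (-(10 : ℝ)) * R := by gcongr
      _ = R ^ (-(10 : ℝ) + 1) := by rw [Real.rpow_add hR0, Real.rpow_one]
      _ ≤ R ^ (-(1 / 2) : ℝ) := hexp (by norm_num)
      _ ≤ x := hx
  have hwR0 : R ^ (1 / 8 : ℝ) ≤ R := by
    calc R ^ (1 / 8 : ℝ) ≤ R ^ (1 : ℝ) := hexp (by norm_num)
      _ = R := Real.rpow_one R
  have hwR1 : R ^ (1 / 4 : ℝ) ≤ R := by
    calc R ^ (1 / 4 : ℝ) ≤ R ^ (1 : ℝ) := hexp (by norm_num)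
      _ = R := Real.rpow_one R
  -- the final algebra
  have hδR : (16 : ℝ) ≤ R ^ δ := by nlinarith
  have key := hALB (Y.card : ℝ) H ((Y.image (cb (Real.sqrt R))).card : ℝ) (En / R) A (R ^ μ) R a b
    y V0 V1 M1 M (fun i => (((S i).image (tb R)).card : ℝ)) (fun i => v0 i / R ^ (1 / 8 : ℝ))
    (fun i => v1 i / R ^ (1 / 4 : ℝ)) hC.N0 hC.H0 hC.q0 hC.E0 hC.A0 hC.L1 hR ha hb hC.y1
    (by linarith) (by linarith) hC.M10 hM0 hC.t0 (fun i => div_pos (hv0 i) hw0)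
    (fun i => div_pos (hv1 i) hw1) hC.h1 hC.h2 hC.h3 hC.h4 hC.h5 hC.h6 hC.h8 hC.h9 hlow
  refine key ?_ ?_ ?_ ?_
  · -- V0
    rw [prod4, rw8 hR] at hV0
    calc V0 * R ^ (1 / 2 : ℝ) * ∏ i, (v0 i / R ^ (1 / 8 : ℝ))
        = V0 * (R ^ (1 / 2 : ℝ) * ∏ i, (v0 i / R ^ (1 / 8 : ℝ))) := by ring
      _ ≤ CW * R ^ (la * (δ + ε₀)) * (Y.image (cb (Real.sqrt R))).card * ∏ i, (M i * b) := hV0
      _ ≤ R ^ μ * (Y.image (cb (Real.sqrt R))).card * ∏ i, (M i * b) := by gcongr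
  · -- V1
    rw [prod4, rw4 hR] at hV1
    calc V1 * R * ∏ i, (v1 i / R ^ (1 / 4 : ℝ))
        = V1 * (R * ∏ i, (v1 i / R ^ (1 / 4 : ℝ))) := by ring
      _ ≤ CW * R ^ (la * (δ + ε₀)) * (Y.image (cb (Real.sqrt R))).card * ∏ i, (M i * b) := hV1
      _ ≤ R ^ μ * (Y.image (cb (Real.sqrt R))).card * ∏ i, (M i * b) := by gcongr
  · -- energy at width R^(1/8)
    intro i
    have h := hDL2 (R ^ (1 / 8 : ℝ)) (2 * (v0 i / R ^ (1 / 8 : ℝ)))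
      (v0 (i + 1) / R ^ (1 / 8 : ℝ)) (2 * (v1 (i + 1) / R ^ (1 / 4 : ℝ))) i (i + 1) Q0 (hij i)
      (hexp (by norm_num)) (by rw [rw8' hR, hsq]; exact hexp (by norm_num))
      ((h10 hw0 (hv0l i) hwR0).trans (by have := div_pos (hv0 i) hw0; linarith))
      (h10 hw0 (hv0l (i + 1)) hwR0) (by have := div_pos (hv1 (i + 1)) hw1; linarith)
      (by
        have e1 : v1 (i + 1) / R ^ (1 / 4 : ℝ) ≤ v1 (i + 1) :=
          div_le_self (hv1 _).le (Real.one_le_rpow hR (by norm_num))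
        have e2 : (2 : ℝ) ≤ R := by
          have : R ^ δ ≤ R ^ (1 : ℝ) := hexp (by linarith)
          rw [Real.rpow_one] at this
          linarith
        calc 2 * (v1 (i + 1) / R ^ (1 / 4 : ℝ)) ≤ R * R ^ (9 : ℝ) := by
              have := hv1u (i + 1)
              have := div_pos (hv1 (i + 1)) hw1
              gcongr
              linarith
          _ = R ^ (1 + 9 : ℝ) := by rw [Real.rpow_add hR0, Real.rpow_one]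
          _ = R ^ (10 : ℝ) := by norm_num)
      (fun z hz => ⟨by
          have e1 := (hN0 i z hz).2
          have e2 : R ^ (1 / 8 : ℝ) * (2 * (v0 i / R ^ (1 / 8 : ℝ))) = 2 * v0 i := by
            field_simp
          rw [e2]; exact e1, by
          rw [mul_div_cancel₀ _ hw0.ne']
          exact (hN0 (i + 1) z hz).1, by
          have e1 := (hN1 (i + 1) z hz).2
          rw [rw8' hR]
          have e2 : R ^ (1 / 4 : ℝ) * (2 * (v1 (i + 1) / R ^ (1 / 4 : ℝ))) = 2 * v1 (i + 1) := by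
            field_simp
          rw [e2]; exact e1⟩) hQ0
    rw [rw8 hR] at h
    have e1 : 2 * (v1 (i + 1) / R ^ (1 / 4 : ℝ)) / (v0 (i + 1) / R ^ (1 / 8 : ℝ)) =
      2 * ((v1 (i + 1) / R ^ (1 / 4 : ℝ)) / (v0 (i + 1) / R ^ (1 / 8 : ℝ))) := by ring
    rw [e1] at h
    exact alge h (hS2 i) (absb (δ := δ) hR (by linarith) hx) hC20 (by positivity) (by norm_num)
      (by norm_num) (div_nonneg (div_pos (hv1 (i + 1)) hw1).le (div_pos (hv0 (i + 1)) hw0).le)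
      (by linarith) (by positivity) (div_pos (hv0 i) hw0).le (mul_nonneg (hC.t0 i).le hb0)
  · -- energy at width R^(1/4)
    intro i
    have hup : ∀ z ∈ Y, Nd N R δ (Real.sqrt R) (Sz R δ ε₀ l k QQ (S (i + 1)) z) z ≤
        CU * M (i + 1) * b := fun z hz =>
      (hDMU (Real.sqrt R) (M (i + 1)) (i + 1) (by rw [hsq]; exact hexp (by linarith)) le_rfl
        (hMh (i + 1)) (fun z hz => (hMt (i + 1) z hz).2) z hz).2
    have hMbS : M (i + 1) * b ≤ B * R ^ (8 : ℝ) := by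
      have e1 := (hMt (i + 1) z₁ hz₁).1
      have e2 : (Mt R δ ε₀ l k QQ (S (i + 1)) z₁ : ℝ) ≤ ((S (i + 1)).image (tb R)).card := by
        unfold Mt
        exact_mod_cast Finset.card_filter_le _ _
      calc M (i + 1) * b ≤ (((S (i + 1)).image (tb R)).card : ℝ) * b := by
            gcongr
            exact e1.trans e2
        _ ≤ (S (i + 1)).card := D.tS1 (i + 1)
        _ ≤ _ := D.card (i + 1)
    have hMbp : 0 < M (i + 1) * b := mul_pos (hM0 _) (by linarith)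
    have hD3 : 0 < CU * (M (i + 1) * b * R ^ (-(1 / 2) : ℝ)) := by positivity
    have h := hDL2 (R ^ (1 / 4 : ℝ)) (2 * (v1 i / R ^ (1 / 4 : ℝ)))
      (v1 (i + 1) / R ^ (1 / 4 : ℝ)) (CU * (M (i + 1) * b * R ^ (-(1 / 2) : ℝ))) i (i + 1) Q1
      (hij i) (hexp (by norm_num)) (by rw [rw4' hR])
      ((h10 hw1 (hv1l i) hwR1).trans (by have := div_pos (hv1 i) hw1; linarith))
      (h10 hw1 (hv1l (i + 1)) hwR1) hD3
      (by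
        calc CU * (M (i + 1) * b * R ^ (-(1 / 2) : ℝ))
            ≤ CU * (B * R ^ (8 : ℝ) * R ^ (-(1 / 2) : ℝ)) := by gcongr
          _ = (CU * B) * (R ^ (8 : ℝ) * R ^ (-(1 / 2) : ℝ)) := by ring
          _ ≤ R ^ δ * (R ^ (8 : ℝ) * R ^ (-(1 / 2) : ℝ)) := by
              have : 0 ≤ CU * B := by positivity
              gcongr
              linarith
          _ = R ^ (δ + (8 + -(1 / 2)) : ℝ) := by
              rw [← Real.rpow_add hR0, ← Real.rpow_add hR0]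
          _ ≤ R ^ (10 : ℝ) := hexp (by linarith))
      (fun z hz => ⟨by
          have e1 := (hN1 i z hz).2
          have e2 : R ^ (1 / 4 : ℝ) * (2 * (v1 i / R ^ (1 / 4 : ℝ))) = 2 * v1 i := by
            field_simp
          rw [e2]; exact e1, by
          rw [mul_div_cancel₀ _ hw1.ne']
          exact (hN1 (i + 1) z hz).1, by
          rw [rw4' hR]
          refine (hup z hz).trans (le_of_eq ?_)
          have e3 : Real.sqrt R * R ^ (-(1 / 2) : ℝ) = 1 := by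
            rw [hsq, ← Real.rpow_add hR0]; norm_num
          calc CU * M (i + 1) * b = (Real.sqrt R * R ^ (-(1 / 2) : ℝ)) * (CU * M (i + 1) * b) := by
                rw [e3, one_mul]
            _ = _ := by ring⟩) hQ1
    rw [rw4 hR] at h
    have e1 : CU * (M (i + 1) * b * R ^ (-(1 / 2) : ℝ)) / (v1 (i + 1) / R ^ (1 / 4 : ℝ)) =
      CU * ((M (i + 1) * b * R ^ (-(1 / 2) : ℝ)) / (v1 (i + 1) / R ^ (1 / 4 : ℝ))) := by ring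
    rw [e1] at h
    have hp : 0 ≤ C2 * CU := by positivity
    exact alge h (hS2 i) (absb (δ := δ) hR (by linarith) hx) hC20 (by positivity)
      (by linarith) (by norm_num) (div_nonneg (by positivity) (div_pos (hv1 (i + 1)) hw1).le)
      (by linarith) hR0.le (div_pos (hv1 i) hw1).le (mul_nonneg (hC.t0 i).le hb0)

end

end Pool.Agent.H88.B2
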