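import Pool.Agent.H88.B2.ASM3

/-!
MP_ee74d2_an, dimension 3: the two-ends case B2, assembly.
-/

set_option autoImplicit false

namespace Pool.Agent.H88.B2

open MeasureTheory Set
open Pool.Agent.H83.G Pool.Agent.H83.G.BRO Pool.Agent.H83.G.TEN
open Pool.Agent.H22.G4 (nv Ind)
open scoped ENNReal NNReal RealInnerProductSpace

/-- the four filters: either one of the four bad sets is large, or the good set is -/
theorem split4 {X : Finset (Z 2)} (bad : Fin 4 → Z 2 → Prop) [∀ i, DecidablePred (bad i)] :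
    (∃ i, (X.card : ℝ) ≤ 8 * (X.filter (bad i)).card) ∨
      (X.card : ℝ) ≤ 2 * (X.filter (fun z => ∀ i, ¬ bad i z)).card := by
  by_contra hcon
  push Not at hcon
  obtain ⟨h1, h2⟩ := hcon
  have h3 : X ⊆ (X.filter (fun z => ∀ i, ¬ bad i z)) ∪
      Finset.univ.biUnion (fun i => X.filter (bad i)) := by
    intro z hz
    by_cases h : ∀ i, ¬ bad i z
    · exact Finset.mem_union_left _ (Finset.mem_filter.2 ⟨hz, h⟩)
    · push Not at h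
      obtain ⟨i, hi⟩ := h
      exact Finset.mem_union_right _ (Finset.mem_biUnion.2
        ⟨i, Finset.mem_univ _, Finset.mem_filter.2 ⟨hz, hi⟩⟩)
  have h4 : (X.card : ℝ) ≤ (X.filter (fun z => ∀ i, ¬ bad i z)).card +
      ∑ i : Fin 4, ((X.filter (bad i)).card : ℝ) := by
    have e1 := (Finset.card_le_card h3).trans (Finset.card_union_le _ _)
    have e2 := Finset.card_biUnion_le (s := (Finset.univ : Finset (Fin 4)))
      (t := fun i => X.filter (bad i))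
    exact_mod_cast e1.trans (Nat.add_le_add_left e2 _)
  rw [Fin.sum_univ_four] at h4
  have q0 := h1 0
  have q1 := h1 1
  have q2 := h1 2
  have q3 := h1 3
  linarith

/-- the same with sets -/
theorem split4' (X : Finset (Z 2)) (bad : Fin 4 → Z 2 → Prop) :
    (∃ (i : Fin 4) (Y : Finset (Z 2)), Y ⊆ X ∧ (∀ z ∈ Y, bad i z) ∧
      (X.card : ℝ) ≤ 8 * Y.card) ∨
    ∃ Y : Finset (Z 2), Y ⊆ X ∧ (∀ z ∈ Y, ∀ i, ¬ bad i z) ∧ (X.card : ℝ) ≤ 2 * Y.card := by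
  classical
  rcases split4 (X := X) bad with ⟨i, hi⟩ | h
  · exact Or.inl ⟨i, X.filter (bad i), Finset.filter_subset _ _,
      fun z hz => (Finset.mem_filter.1 hz).2, hi⟩
  · exact Or.inr ⟨X.filter (fun z => ∀ i, ¬ bad i z), Finset.filter_subset _ _,
      fun z hz => (Finset.mem_filter.1 hz).2, h⟩

/-- final comparison -/
theorem fin_num {R A En X Y H Kp μ θ c C : ℝ} (hR : 1 ≤ R) (hA : 0 < A) (hEn : 0 < En)
    (hX : X ≤ Kp * Y) (hH : 0 < H) (hY : 0 ≤ Y) (hKp : Kp ≤ R ^ μ) (hC : 1 ≤ C)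
    (hθ : 11 * μ + c ≤ θ)
    (h : Y * H ^ (10 / 3 : ℝ) ≤
      (R ^ μ) ^ 10 * R ^ (-θ) * A ^ (4 / 3 : ℝ) * R ^ (4 / 3 : ℝ) * (En / R)) :
    X * H ^ (10 / 3 : ℝ) ≤ C * R ^ (-c) * A ^ (4 / 3 : ℝ) * R ^ (1 / 3 : ℝ) * En := by
  have hR0 : 0 < R := by linarith
  have e1 : (R ^ μ) ^ 10 = R ^ (10 * μ) := by
    rw [← Real.rpow_natCast, ← Real.rpow_mul hR0.le]; congr 1; push_cast; ring
  have e2 : R ^ (4 / 3 : ℝ) * (En / R) = R ^ (1 / 3 : ℝ) * En := by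
    have : R ^ (4 / 3 : ℝ) = R ^ (1 / 3 : ℝ) * R := by
      rw [← Real.rpow_add_one hR0.ne']; norm_num
    rw [this]; field_simp
  calc X * H ^ (10 / 3 : ℝ) ≤ Kp * Y * H ^ (10 / 3 : ℝ) := by gcongr
    _ = Kp * (Y * H ^ (10 / 3 : ℝ)) := by ring
    _ ≤ R ^ μ * ((R ^ μ) ^ 10 * R ^ (-θ) * A ^ (4 / 3 : ℝ) * R ^ (4 / 3 : ℝ) * (En / R)) := by
        have : 0 ≤ Y * H ^ (10 / 3 : ℝ) := by positivity
        gcongr
    _ = (R ^ μ * R ^ (10 * μ) * R ^ (-θ)) * A ^ (4 / 3 : ℝ) * (R ^ (4 / 3 : ℝ) * (En / R)) := by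
        rw [e1]; ring
    _ = R ^ (μ + 10 * μ + -θ) * A ^ (4 / 3 : ℝ) * (R ^ (1 / 3 : ℝ) * En) := by
        rw [Real.rpow_add hR0, Real.rpow_add hR0, e2]
    _ ≤ R ^ (-c) * A ^ (4 / 3 : ℝ) * (R ^ (1 / 3 : ℝ) * En) := by
        have : R ^ (μ + 10 * μ + -θ) ≤ R ^ (-c) :=
          Real.rpow_le_rpow_of_exponent_le hR (by linarith)
        gcongr
    _ = 1 * (R ^ (-c) * A ^ (4 / 3 : ℝ) * R ^ (1 / 3 : ℝ) * En) := by ring
    _ ≤ C * (R ^ (-c) * A ^ (4 / 3 : ℝ) * R ^ (1 / 3 : ℝ) * En) := by gcongr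
    _ = _ := by ring

theorem fin_num' {R A En Y H μ θ θ' : ℝ} (hR : 1 ≤ R) (hA : 0 < A) (hEn : 0 < En)
    (hθ : θ' ≤ θ)
    (h : Y * H ^ (10 / 3 : ℝ) ≤
      (R ^ μ) ^ 10 * R ^ (-θ) * A ^ (4 / 3 : ℝ) * R ^ (4 / 3 : ℝ) * (En / R)) :
    Y * H ^ (10 / 3 : ℝ) ≤
      (R ^ μ) ^ 10 * R ^ (-θ') * A ^ (4 / 3 : ℝ) * R ^ (4 / 3 : ℝ) * (En / R) := by
  have hR0 : 0 < R := by linarith
  refine h.trans ?_
  have : R ^ (-θ) ≤ R ^ (-θ') := Real.rpow_le_rpow_of_exponent_le hR (by linarith)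
  gcongr

/-- the choice of the small parameter -/
theorem epsc (E₁ E₂ : ℝ) (hE₁ : 0 ≤ E₁) (hE₂ : 0 ≤ E₂) :
    ∃ ε₀ : ℝ, 0 < ε₀ ∧ ε₀ ≤ 1 / 10 ^ 12 ∧
      1 / 1000000 + (E₁ + E₂ + 2 * la + 2000) * (ε₀ + ε₀) ≤ 1 / 100000 := by
  refine ⟨1 / (10 ^ 12 * (1 + E₁ + E₂)), by positivity, ?_, ?_⟩
  · refine one_div_le_one_div_of_le (by norm_num) ?_
    nlinarith
  · have hla : la = 100000 := rfl
    rw [hla]
    have h1 : (E₁ + E₂ + 2 * 100000 + 2000) ≤ 202000 * (1 + E₁ + E₂) := by nlinarith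
    have h2 : 0 < 1 + E₁ + E₂ := by linarith
    have h3 : (E₁ + E₂ + 2 * 100000 + 2000) * (1 / (10 ^ 12 * (1 + E₁ + E₂)) +
        1 / (10 ^ 12 * (1 + E₁ + E₂))) ≤ 202000 * 2 / 10 ^ 12 := by
      calc (E₁ + E₂ + 2 * 100000 + 2000) * (1 / (10 ^ 12 * (1 + E₁ + E₂)) +
            1 / (10 ^ 12 * (1 + E₁ + E₂)))
          ≤ (202000 * (1 + E₁ + E₂)) * (1 / (10 ^ 12 * (1 + E₁ + E₂)) +
            1 / (10 ^ 12 * (1 + E₁ + E₂))) := by gcongr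
        _ = 202000 * 2 / 10 ^ 12 := by field_simp; norm_num
    have h4 : (202000 * 2 / 10 ^ 12 : ℝ) ≤ 9 / 1000000 := by norm_num
    linarith

end Pool.Agent.H88.B2
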