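import Pool.Agent.H88.B2.ASM4

/-!
MP_ee74d2_an, dimension 3: the two-ends case B2.
-/

set_option autoImplicit false

namespace Pool.Agent.H88.B2

open MeasureTheory Set
open Pool.Agent.H83.G Pool.Agent.H83.G.BRO Pool.Agent.H83.G.TEN
open Pool.Agent.H22.G4 (nv Ind)
open scoped ENNReal NNReal RealInnerProductSpace

theorem npow_le {R B : ℝ} {n : ℕ} (hR : 1 ≤ R) (hB : 1 ≤ B) (h : B * R ^ (20 : ℝ) ≤ 2 ^ n)
    {x : ℝ} (hx : x ≤ B * R ^ (20 : ℝ)) {y : ℝ} (hy : R ^ (-(20 : ℝ)) ≤ y) :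
    (2 : ℝ)⁻¹ ^ n ≤ y ∧ x ≤ 2 ^ n := by
  have hR0 : 0 < R := by linarith
  refine ⟨?_, hx.trans h⟩
  refine le_trans ?_ hy
  rw [inv_pow, Real.rpow_neg hR0.le]
  have h1 : R ^ (20 : ℝ) ≤ 2 ^ n := by
    refine le_trans ?_ h
    have : 0 ≤ R ^ (20 : ℝ) := by positivity
    nlinarith
  gcongr

open scoped Classical in
/-- B2 -/
theorem pf_B2 (hDA1 : T_DA1) (hDRD : T_DRD) (hDML : T_DML) (hDLW : T_DLW) (hDL2 : T_DL2)
    (hDHL : T_DHL) (hDMU : T_DMU) (hDKS : T_DKS) (hALA : T_ALA) (hALB : T_ALB) (hPGR : T_PGR)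
    (hWWE : T_WWE) (hWT3 : T_WT3) : Pool.Agent.H82.LB.T_B2 := by
  obtain ⟨E₁, hE₁, hDML'⟩ := hDML (1 / 1000000) (by norm_num)
  obtain ⟨E₂, hE₂, hDKS'⟩ := hDKS
  obtain ⟨ε₀, hε₀, hε₁, hμ⟩ := epsc E₁ E₂ hE₁ hE₂
  obtain ⟨CS, hCS, hnear⟩ := near_card hWT3
  have hε12 : ε₀ ≤ 1 / 10 ^ 6 := hε₁.trans (by norm_num)
  refine ⟨ε₀, 1 / 2000, ε₀, 10, hε₀, by linarith, by norm_num, by norm_num, hε₀, by linarith, ?_⟩
  intro L β Ψ ψ δ b₀ B hL hβ hΨ hδ hδ1 hb₀ hB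
  obtain ⟨NA, hA'⟩ := hDA1 L β Ψ ψ δ b₀ B ε₀
  obtain ⟨NR, hR'⟩ := hDRD L β Ψ ψ δ b₀ B ε₀
  obtain ⟨NM, hM'⟩ := hDML' L β Ψ ψ δ b₀ B ε₀
  obtain ⟨NW, hW'⟩ := hDLW L β Ψ ψ δ b₀ B ε₀
  obtain ⟨N2, h2'⟩ := hDL2 L β Ψ ψ δ b₀ B ε₀
  obtain ⟨NH, hH'⟩ := hDHL L β Ψ ψ δ b₀ B ε₀
  obtain ⟨NU, hU'⟩ := hDMU L β Ψ ψ δ b₀ B ε₀
  obtain ⟨NK, hK'⟩ := hDKS' L β Ψ ψ δ b₀ B ε₀ (by linarith)
  obtain ⟨C9, hC9, h9⟩ := logn 20 B δ (by norm_num) hB hδ 16
  refine ⟨NA + NR + NM + NW + N2 + NH + NU + NK + 10, ?_⟩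
  intro N hN
  obtain ⟨CA, hCA, hDA⟩ := hA' N (by omega)
  obtain ⟨CR, hCR, hDR⟩ := hR' N (by omega)
  obtain ⟨CM, hCM, hDM⟩ := hM' N (by omega)
  obtain ⟨CW, hCW, hDW⟩ := hW' N (by omega)
  obtain ⟨C2, hC2, hD2⟩ := h2' N (by omega)
  obtain ⟨CH, hCH, hDH⟩ := hH' N (by omega)
  obtain ⟨CU, hCU, hDU⟩ := hU' N (by omega)
  obtain ⟨CK, hCK, hDK⟩ := hK' N (by omega)
  clear hA' hR' hM' hW' h2' hH' hU' hK'
  have p1 : 1 ≤ C2 * CU := by nlinarith
  have p2 : 1 ≤ CU * B := by nlinarith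
  have hN10 : 10 ≤ N := by omega
  clear hN
  refine ⟨16 * (CA + CR + CM + CW + C2 + C2 * CU + CH + CU + CU * B + CK + 2 ^ 20 * C9 + CS + B +
    1), by linarith, ?_⟩
  intro κ R P A H En G c z₀ S a b l k QQ ν X hκ0 hκ1 hR hCC hP hPR hA0 hH hHA hEn hcls hc12 hind
    hsep hball hpk hcard ha hb htube hen hEn1 hν hνQ hcube2 hcb hQQ hk hF
  have hR0 : 0 < R := by linarith
  rcases X.eq_empty_or_nonempty with rfl | hXne
  · simp only [Finset.card_empty, Nat.cast_zero, zero_mul]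
    positivity
  have D : Dat L N β Ψ ψ δ b₀ B ε₀ κ R P A H En G c z₀ S a b l k QQ X :=
    { pu := hβ, psi := hΨ, L0 := hL, N0 := hN10, d0 := hδ, d1 := by linarith, b0 := hb₀, B1 := hB
      e0 := hε₀, e1 := by linarith, k0 := hκ0, k1 := hκ1, R1 := hR, P1 := hP, PR := hPR, A0 := hA0
      H0 := hH, HA := hHA, En0 := hEn, cls := hcls, c12 := hc12, ind := hind, sep := hsep
      ball := hball, pk := hpk, card := hcard, a0 := ha, b1 := hb, tube := htube, en := hen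
      En1 := hEn1, cube := hcb, cubes := hQQ, FH := hF }
  clear hcls hc12 hind hball hpk htube hen hEn1 hcb hQQ hF hHA
  have hexp : ∀ {x y : ℝ}, x ≤ y → R ^ x ≤ R ^ y := fun h =>
    Real.rpow_le_rpow_of_exponent_le hR h
  -- stage one
  obtain ⟨n, hn1, hn2⟩ := h9 R hR
  have hpt := (hDA κ R P A H En G c z₀ S a b l k QQ X (by linarith) D hXne).2.2.2.2.1
  have hBR : B * R ^ (8 : ℝ) ≤ B * R ^ (20 : ℝ) := by
    have := hexp (show (8 : ℝ) ≤ 20 by norm_num)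
    gcongr
  have hMtS : ∀ z i, (Mt R δ ε₀ l k QQ (S i) z : ℝ) ≤ B * R ^ (8 : ℝ) := by
    intro z i
    have e2 : Mt R δ ε₀ l k QQ (S i) z ≤ (S i).card := by
      unfold Mt
      exact (Finset.card_filter_le _ _).trans Finset.card_image_le
    have e3 : (Mt R δ ε₀ l k QQ (S i) z : ℝ) ≤ ((S i).card : ℝ) := by exact_mod_cast e2
    exact e3.trans (D.card i)
  have hone : R ^ (-(20 : ℝ)) ≤ 1 := Real.rpow_le_one_of_one_le_of_nonpos hR (by norm_num)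
  obtain ⟨Xa, M, hXa, hM0, hca, hMa⟩ := pig hPGR (X := X) n
    (fun i z => (Mt R δ ε₀ l k QQ (S i) z : ℝ)) (fun i z hz =>
      npow_le hR hB hn1 ((hMtS z i).trans hBR) (hone.trans (by exact_mod_cast (hpt z hz i).1)))
  obtain ⟨X₁, M1, hX1, hM10, hc1, hN1⟩ := pig hPGR (X := Xa) n
    (fun i z => Nd N R δ (R ^ δ) (Sz R δ ε₀ l k QQ (S i) z) z) (fun i z hz =>
      npow_le hR hB hn1 (((hpt z (hXa hz) i).2.2 _).trans hBR)
        ((hexp (by linarith)).trans (hpt z (hXa hz) i).2.1))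
  have hX1X : X₁ ⊆ X := hX1.trans hXa
  set Kn : ℝ := (2 * (n : ℝ) + 1) ^ 4 with hKn
  have hn0 : (0 : ℝ) ≤ n := Nat.cast_nonneg n
  have hKn1 : 1 ≤ Kn := one_le_pow₀ (by linarith)
  have hKnb : 8 * Kn ^ 4 ≤ R ^ (2 * δ) := by
    have e1 : Kn ^ 4 ≤ 2 ^ 16 * ((n : ℝ) + 1) ^ 16 := by
      calc Kn ^ 4 = (2 * (n : ℝ) + 1) ^ 16 := by rw [hKn]; ring
        _ ≤ (2 * ((n : ℝ) + 1)) ^ 16 := by gcongr; linarith
        _ = _ := by ring
    have e2 : 2 ^ 20 * C9 ≤ R ^ δ := by linarith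
    have e3 : R ^ (2 * δ) = R ^ δ * R ^ δ := by rw [← Real.rpow_add hR0]; congr 1; ring
    calc 8 * Kn ^ 4 ≤ 8 * (2 ^ 16 * (C9 * R ^ δ)) := by
          have := e1.trans (mul_le_mul_of_nonneg_left hn2 (by norm_num : (0 : ℝ) ≤ 2 ^ 16))
          linarith
      _ = (2 ^ 19 * C9) * R ^ δ := by ring
      _ ≤ R ^ δ * R ^ δ := by
          have : 2 ^ 19 * C9 ≤ R ^ δ := by linarith
          gcongr
      _ = _ := e3.symm
  have hX1c : (X.card : ℝ) ≤ Kn * (Kn * X₁.card) := by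
    refine hca.trans ?_
    gcongr
  have hmu : 1 / 1000000 + (E₁ + E₂ + 2 * la + 2000) * (δ + ε₀) ≤ 1 / 100000 := by
    refine le_trans ?_ hμ
    have : 0 ≤ E₁ + E₂ + 2 * la + 2000 := by unfold la; linarith
    gcongr
  obtain ⟨x1, x2, x3, x4, x5, x6, x7, x8⟩ := expos hE₁ hE₂ hδ hε₀ hmu
  have hR2 : 1 ≤ R ^ (ε₀ + 3 * δ) := Real.one_le_rpow hR (by linarith)
  have hk' : CK ≤ (2 : ℝ) ^ k := by linarith
  -- the common inequalities
  have com : ∀ Y ⊆ X₁, Y.Nonempty → (X.card : ℝ) ≤ R ^ (2 * δ) * Y.card →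
      ∃ y : ℝ, Com (Y.card : ℝ) H ((Y.image (cb (Real.sqrt R))).card : ℝ) (En / R) A
        (R ^ (1 / 100000 : ℝ)) R a b y M1 M (fun i => (((S i).image (tb R)).card : ℝ)) := by
    intro Y hY hYn hYc
    have DY := D.mono (hY.trans hX1X)
    have hdy := hDA κ R P A H En G c z₀ S a b l k QQ Y (by linarith) DY hYn
    refine com_of (1 / 100000) E₂ CK CM CW CS CU CA CR E₁ M M1 DY hYn hE₁ hE₂ hmu (by linarith)
      (by linarith) (by linarith) (by linarith) (by linarith) (by linarith) (by linarith)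
      (by linarith) (by linarith) (by linarith) (by linarith) (by linarith) hM0 hM10
      (fun i z hz => hMa i z (hX1 (hY hz))) (fun i z hz => hN1 i z (hY hz))
      ⟨hdy.1, fun z hz i => ⟨(hdy.2.2.2.2.1 z hz i).1, (hdy.2.2.2.2.1 z hz i).2.1⟩⟩
      (fun M₁ i h1 h2 => hDR κ R P A H En G c z₀ S a b l k QQ Y M₁ i (by linarith) DY h1 h2)
      (hDM κ R P A H En G c z₀ S a b l k QQ Y (by linarith) DY)
      (fun w M i h1 h2 h3 h4 => hDU κ R P A H En G c z₀ S a b l k QQ Y w M i (by linarith) DY h1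
        h2 h3 h4)
      (fun w M D' h1 h2 h3 h4 => hDW κ R P A H En G c z₀ S a b l k QQ Y w M D' (by linarith) DY h1
        h2 h3 h4) hnear ?_
    refine hDK κ R P A H En G c z₀ S a b l k QQ Y M ν (R ^ (ε₀ + 3 * δ)) (by linarith) DY hk' hM0
      (fun z hz i => (hMa i z (hX1 (hY hz))).1) hYn hν hR2 ?_ ?_
    · calc ν * QQ.card ≤ R ^ ε₀ * X.card := hνQ
        _ ≤ R ^ ε₀ * (R ^ (2 * δ) * Y.card) := by gcongr
        _ = R ^ (ε₀ + 2 * δ) * Y.card := by rw [Real.rpow_add hR0]; ring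
        _ ≤ R ^ (ε₀ + 3 * δ) * Y.card := by
            have := hexp (show ε₀ + 2 * δ ≤ ε₀ + 3 * δ by linarith)
            gcongr
    · intro q
      refine le_trans ?_ (hcube2 q)
      exact_mod_cast Finset.card_le_card (Finset.filter_subset_filter _ (hY.trans hX1X))
  have hXpos : 0 < X.card := Finset.card_pos.2 hXne
  have hXpos' : (0 : ℝ) < X.card := by exact_mod_cast hXpos
  have hne : ∀ Y : Finset (Z 2), (X.card : ℝ) ≤ R ^ (2 * δ) * Y.card → Y.Nonempty := by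
    intro Y hY
    rw [Finset.nonempty_iff_ne_empty]
    rintro rfl
    simp only [Finset.card_empty, Nat.cast_zero, mul_zero] at hY
    linarith
  have hC16 : 1 ≤ 16 * (CA + CR + CM + CW + C2 + C2 * CU + CH + CU + CU * B + CK + 2 ^ 20 * C9 +
    CS + B + 1) := by linarith
  have h2δ : R ^ (2 * δ) ≤ R ^ (1 / 100000 : ℝ) := hexp (by linarith)
  -- the two cases
  rcases split4' X₁ (fun i z => CH * R ^ (la * δ) * Nd N R δ (R ^ (1 / 8 : ℝ))
    (Sz R δ ε₀ l k QQ (S i) z) z < M1 i * R ^ (1 / 8 : ℝ)) with ⟨i₀, Y, hY, hbad, hYc⟩ |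
      ⟨X₂, hX2, hgood, hX2c⟩
  · -- case A
    have hYc' : (X.card : ℝ) ≤ R ^ (2 * δ) * Y.card := by
      calc (X.card : ℝ) ≤ Kn * (Kn * X₁.card) := hX1c
        _ ≤ Kn * (Kn * (8 * Y.card)) := by gcongr
        _ = 8 * (Kn ^ 2 * 1) * Y.card := by ring
        _ ≤ 8 * (Kn ^ 2 * Kn ^ 2) * Y.card := by
            have : 1 ≤ Kn ^ 2 := one_le_pow₀ hKn1
            gcongr
        _ = 8 * Kn ^ 4 * Y.card := by ring
        _ ≤ R ^ (2 * δ) * Y.card := by gcongr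
    have hYn := hne Y hYc'
    have DY := D.mono (hY.trans hX1X)
    obtain ⟨y, hC⟩ := com Y hY hYn hYc'
    obtain ⟨z₁, hz₁⟩ := hYn
    have hM1low : R ^ (-(20 * δ)) ≤ M1 i₀ := by
      have h1 := (hpt z₁ (hX1X (hY hz₁)) i₀).2.1
      have h2 := (hN1 i₀ z₁ (hY hz₁)).2
      have h3 : 2 * R ^ (-(20 * δ)) ≤ R ^ (-(10 * δ)) :=
        absb (δ := δ) hR (by linarith) (by linarith)
      linarith
    have hMh : 1 ≤ 2 * M i₀ := by
      have h1 := (hpt z₁ (hX1X (hY hz₁)) i₀).1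
      have h2 := (hMa i₀ z₁ (hX1 (hY hz₁))).2
      have h3 : (1 : ℝ) ≤ (Mt R δ ε₀ l k QQ (S i₀) z₁ : ℝ) := by exact_mod_cast h1
      linarith
    have hhl := hDH κ R P A H En G c z₀ S a b l k QQ Y (M1 i₀) (M i₀) i₀ (by linarith) DY hM1low
      hMh (fun z hz => ⟨(hN1 i₀ z (hY hz)).1, (hMa i₀ z (hX1 (hY hz))).2, hbad z hz⟩)
    have h1 := caseA (1 / 100000) CH y M M1 i₀ hALA DY hC x6 (by linarith) (by linarith) hhl
    have h2 := fin_num' (θ' := 1 / 1164) hR hA0 hEn (by norm_num) h1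
    exact fin_num (μ := 1 / 100000) (θ := 1 / 1164) (Kp := R ^ (2 * δ)) hR hA0 hEn hYc' hH
      (Nat.cast_nonneg _) h2δ hC16 (by norm_num) h2
  · -- case B
    have hlowN : ∀ i, ∀ z ∈ X₂, M1 i * R ^ (1 / 8 : ℝ) ≤
        CH * R ^ (la * δ) * Nd N R δ (R ^ (1 / 8 : ℝ)) (Sz R δ ε₀ l k QQ (S i) z) z :=
      fun i z hz => not_lt.1 (hgood z hz i)
    have hCHla : CH * R ^ (la * δ) ≤ R ^ (1 / 100 : ℝ) := by
      refine absb (δ := δ) hR (by linarith) ?_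
      have : la * δ ≤ la * (1 / 10 ^ 12) := by
        have h1 : 0 ≤ la := by unfold la; norm_num
        have := hδ1.trans hε₁
        gcongr
      have h2 : la * (1 / 10 ^ 12) ≤ 1 / 1000 := by unfold la; norm_num
      linarith
    have hNdpos : ∀ i, ∀ z ∈ X₂, ∀ w, 0 ≤ Nd N R δ w (Sz R δ ε₀ l k QQ (S i) z) z := by
      intro i z _ w
      exact Finset.sum_nonneg fun W _ => ((hWWE 2 N R δ W hR0).1 w z).1.le
    -- lower bound at width R^(1/8)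
    have hlow8 : ∀ i, ∀ z ∈ X₂, R ^ (0 : ℝ) ≤
        Nd N R δ (R ^ (1 / 8 : ℝ)) (Sz R δ ε₀ l k QQ (S i) z) z := by
      intro i z hz
      have h1 := hlowN i z hz
      have h2 : R ^ (-(20 * δ)) ≤ M1 i := by
        have h1 := (hpt z (hX1X (hX2 hz)) i).2.1
        have h2 := (hN1 i z (hX2 hz)).2
        have h3 : 2 * R ^ (-(20 * δ)) ≤ R ^ (-(10 * δ)) :=
          absb (δ := δ) hR (by linarith) (by linarith)
        linarith
      have h3 : R ^ (-(20 * δ) + 1 / 8) ≤ R ^ (1 / 100 : ℝ) *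
          Nd N R δ (R ^ (1 / 8 : ℝ)) (Sz R δ ε₀ l k QQ (S i) z) z := by
        calc R ^ (-(20 * δ) + 1 / 8) = R ^ (-(20 * δ)) * R ^ (1 / 8 : ℝ) := Real.rpow_add hR0 _ _
          _ ≤ M1 i * R ^ (1 / 8 : ℝ) := by gcongr
          _ ≤ _ := h1
          _ ≤ _ := by
              have := hNdpos i z hz (R ^ (1 / 8 : ℝ))
              gcongr
      by_contra hcon
      rw [not_le] at hcon
      have h4 : R ^ (1 / 100 : ℝ) * Nd N R δ (R ^ (1 / 8 : ℝ)) (Sz R δ ε₀ l k QQ (S i) z) z <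
          R ^ (1 / 100 : ℝ) * R ^ (0 : ℝ) := by
        have : 0 < R ^ (1 / 100 : ℝ) := by positivity
        exact mul_lt_mul_of_pos_left hcon this
      rw [← Real.rpow_add hR0] at h4
      have h5 : R ^ (1 / 100 + 0 : ℝ) ≤ R ^ (-(20 * δ) + 1 / 8) := hexp (by linarith)
      linarith
    have hlow4 : ∀ i, ∀ z ∈ X₂, R ^ (0 : ℝ) ≤
        Nd N R δ (R ^ (1 / 4 : ℝ)) (Sz R δ ε₀ l k QQ (S i) z) z := by
      intro i z hz
      refine (hlow8 i z hz).trans ?_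
      refine Finset.sum_le_sum fun W _ => ?_
      exact (hWWE 2 N R δ W hR0).2.1 _ _ z (by positivity) (hexp (by norm_num))
    have h020 : R ^ (-(20 : ℝ)) ≤ R ^ (0 : ℝ) := hexp (by norm_num)
    obtain ⟨Xb, v0, hXb, hv0, hcb', hNb⟩ := pig hPGR (X := X₂) n
      (fun i z => Nd N R δ (R ^ (1 / 8 : ℝ)) (Sz R δ ε₀ l k QQ (S i) z) z) (fun i z hz =>
        npow_le hR hB hn1 (((hpt z (hX1X (hX2 hz)) i).2.2 _).trans hBR)
          (h020.trans (hlow8 i z hz)))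
    obtain ⟨Y, v1, hYb, hv1, hcy, hNy⟩ := pig hPGR (X := Xb) n
      (fun i z => Nd N R δ (R ^ (1 / 4 : ℝ)) (Sz R δ ε₀ l k QQ (S i) z) z) (fun i z hz =>
        npow_le hR hB hn1 (((hpt z (hX1X (hX2 (hXb hz))) i).2.2 _).trans hBR)
          (h020.trans (hlow4 i z (hXb hz))))
    have hY2 : Y ⊆ X₂ := hYb.trans hXb
    have hY1 : Y ⊆ X₁ := hY2.trans hX2
    have hYc' : (X.card : ℝ) ≤ R ^ (2 * δ) * Y.card := by
      calc (X.card : ℝ) ≤ Kn * (Kn * X₁.card) := hX1c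
        _ ≤ Kn * (Kn * (2 * X₂.card)) := by gcongr
        _ ≤ Kn * (Kn * (2 * (Kn * Xb.card))) := by gcongr
        _ ≤ Kn * (Kn * (2 * (Kn * (Kn * Y.card)))) := by gcongr
        _ = 2 * Kn ^ 4 * Y.card := by ring
        _ ≤ 8 * Kn ^ 4 * Y.card := by
            have : 0 ≤ Kn ^ 4 := by positivity
            gcongr
            norm_num
        _ ≤ R ^ (2 * δ) * Y.card := by gcongr
    have hYn := hne Y hYc'
    have DY := D.mono (hY1.trans hX1X)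
    obtain ⟨y, hC⟩ := com Y hY1 hYn hYc'
    obtain ⟨z₁, hz₁⟩ := hYn
    have hMh : ∀ i, 1 ≤ 2 * M i := by
      intro i
      have h1 := (hpt z₁ (hX1X (hY1 hz₁)) i).1
      have h2 := (hMa i z₁ (hX1 (hY1 hz₁))).2
      have h3 : (1 : ℝ) ≤ (Mt R δ ε₀ l k QQ (S i) z₁ : ℝ) := by exact_mod_cast h1
      linarith
    have hhalf : 2 * R ^ (-(1 / 2) : ℝ) ≤ R ^ (0 : ℝ) :=
      absb (δ := δ) hR (by linarith) (by linarith)
    have hR16 : (16 : ℝ) ≤ R ^ δ := by linarith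
    have h1 := caseB (1 / 100000) CW C2 CU y M M1 v0 v1 hALB DY hC x6 (by linarith) (by linarith)
      (by linarith) hCU (by linarith) (by linarith)
      (fun i z hz => hMa i z (hX1 (hY1 hz))) hMh hv0 hv1
      (fun i z hz => hNb i z (hYb hz)) (fun i z hz => hNy i z hz)
      (fun i => by
        have e1 := (hNb i z₁ (hYb hz₁)).2
        have e2 := hlow8 i z₁ (hY2 hz₁)
        linarith)
      (fun i => by
        have e1 := (hNy i z₁ hz₁).2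
        have e2 := hlow4 i z₁ (hY2 hz₁)
        linarith)
      (fun i => by
        have e1 := (hNy i z₁ hz₁).1
        have e2 := (hpt z₁ (hX1X (hY1 hz₁)) i).2.2 (R ^ (1 / 4 : ℝ))
        have e3 : B * R ^ (8 : ℝ) ≤ R ^ (9 : ℝ) :=
          absb (δ := δ) hR (by linarith) (by linarith)
        exact (e1.trans e2).trans e3)
      (fun i => by
        have e1 := hlowN i z₁ (hY2 hz₁)
        have e2 := (hNb i z₁ (hYb hz₁)).2
        have e3 : 2 * CH * R ^ (la * δ) ≤ R ^ (1 / 100000 : ℝ) := by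
          refine absb (δ := δ) hR (by linarith) ?_
          have : la * δ ≤ la * (δ + ε₀) := by
            have h1 : 0 ≤ la := by unfold la; norm_num
            gcongr
            linarith
          linarith
        have e4 : 0 < R ^ (1 / 8 : ℝ) := by positivity
        rw [← mul_div_assoc, le_div_iff₀ e4]
        have hCHp : 0 ≤ CH * R ^ (la * δ) := by positivity
        calc M1 i * R ^ (1 / 8 : ℝ) ≤ CH * R ^ (la * δ) *
              Nd N R δ (R ^ (1 / 8 : ℝ)) (Sz R δ ε₀ l k QQ (S i) z₁) z₁ := e1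
          _ ≤ CH * R ^ (la * δ) * (2 * v0 i) := by gcongr
          _ = 2 * CH * R ^ (la * δ) * v0 i := by ring
          _ ≤ R ^ (1 / 100000 : ℝ) * v0 i := by
              have := (hv0 i).le
              gcongr)
      (fun w M i h1 h2 h3 h4 => hDU κ R P A H En G c z₀ S a b l k QQ Y w M i (by linarith) DY h1
        h2 h3 h4)
      (fun w M D' h1 h2 h3 h4 => hDW κ R P A H En G c z₀ S a b l k QQ Y w M D' (by linarith) DY h1
        h2 h3 h4)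
      (fun w D₁ D₂ D₃ i j Q h1 h2 h3 h4 h5 h6 h7 h8 h9 => hD2 κ R P A H En G c z₀ S a b l k QQ Y w
        D₁ D₂ D₃ i j Q (by linarith) DY h1 h2 h3 h4 h5 h6 h7 h8 h9)
    exact fin_num (μ := 1 / 100000) (θ := 1 / 1164) (Kp := R ^ (2 * δ)) hR hA0 hEn hYc' hH
      (Nat.cast_nonneg _) h2δ hC16 (by norm_num) h1

end Pool.Agent.H88.B2
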