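import Pool.Agent.H88.B2.All
import Pool.Agent.H82.LB.Chain1

/-!
MP_ee74d2_an, dimension 3: Lemma B at a node, closed.
-/

set_option autoImplicit false

namespace Pool.Agent.H88.B2.All

/-- Lemma B at a node -/
theorem lemn : Pool.Agent.H82.LB.T_LEMN := Pool.Agent.H82.LB.Chain.b_LEMN b2

end Pool.Agent.H88.B2.All
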