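import Pool.Agent.H88.B2.Defs

/-!
Local smoothing in dimension `3` below `p = 10/3` (MP_ee74d2_an), the two-ends case: targets.
Page: `/team-store/H88_B2.md`. `W`: weights; `D`: density; `L`: energy at width `w`;
`C`: counting in the cubes.
-/

set_option autoImplicit false

namespace Pool.Agent.H88.B2

open MeasureTheory Set
open Pool.Agent.H83.G
open Pool.Agent.H22.G4 (nv Ind)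
open scoped ENNReal NNReal RealInnerProductSpace

/-- tube coordinates: width `w`, length `w²`, direction `η` -/
noncomputable def Lt {m : ℕ} (η : E m) (w : ℝ) (z : Z m) : Z m :=
  (w⁻¹ * (Lo η w⁻¹ z).1, (Lo η w⁻¹ z).2)

/-! ### weights -/

/-- WWE: elementary properties of the weights -/
def T_WWE : Prop := ∀ (m N : ℕ) (R δ : ℝ) (W : Pk m), 0 < R →
  (∀ w z, 0 < ww N R δ w W z ∧ ww N R δ w W z ≤ 1) ∧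
  (∀ w w' z, 0 < w → w ≤ w' → ww N R δ w W z ≤ ww N R δ w' W z) ∧
  (∀ w, Continuous (ww N R δ w W)) ∧
  (∀ (N' : ℕ) (w : ℝ) (z : Z m), N ≤ N' → ww N' R δ w W z ≤ ww N R δ w W z) ∧
  ∀ z, wt (2 * N) (fc R δ W.1 z - zc W.2) ≤ ww N R δ (R ^ δ) W z ∧
    ww N R δ (R ^ δ) W z ≤ wt N (fc R δ W.1 z - zc W.2)

/-- WWS: slow variation of the weights -/
def T_WWS : Prop := ∀ (m N : ℕ), ∃ C : ℝ, 1 ≤ C ∧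
  (∀ (R δ w : ℝ) (W : Pk m) (z z' : Z m), 1 ≤ R → 0 ≤ δ → 0 < w → w ≤ Real.sqrt R →
    ‖ctr (sR R) W.1‖ ≤ 3 →
    ww N R δ w W z ≤ C * (1 + ‖w⁻¹ • (z - z')‖) ^ (2 * N) * ww N R δ w W z') ∧
  (∀ (R δ w : ℝ) (η : E m) (W : Pk m) (z z' : Z m), 1 ≤ R → 0 ≤ δ → 1 ≤ w →
    w ^ 2 ≤ Real.sqrt R → ‖η‖ ≤ 4 → ‖ctr (sR R) W.1‖ ≤ 3 →
    ww N R δ (w ^ 2) W z ≤ C * (1 + ‖Lt η w (z - z')‖) ^ (2 * N) * ww N R δ (w ^ 2) W z') ∧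
  (∀ (R δ w : ℝ) (η : E m) (W : Pk m) (z z' : Z m), 1 ≤ R → 0 ≤ δ → 1 ≤ w →
    w ≤ Real.sqrt R → ‖ctr (sR R) W.1 - η‖ ≤ 4 * w⁻¹ →
    wt N (fc R δ W.1 z - zc W.2) ≤
      C * (1 + ‖Lo η w⁻¹ (z - z')‖) ^ N * wt N (fc R δ W.1 z' - zc W.2)) ∧
  ∀ (η : E m) (w : ℝ) (x : Z m), ‖η‖ ≤ 4 → 1 ≤ w →
    ‖Lt η w x‖ ≤ C * ‖w⁻¹ • x‖ ∧ ‖Lt η w x‖ ≤ ‖Lo η w⁻¹ x‖

/-- DI1: a plank of width `w` crosses a tube of width `w` and length `w²` transversally -/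
def T_DI1 : Prop := ∀ (m N N₂ : ℕ), 1 ≤ m → 2 ≤ N → 2 * N + m + 3 ≤ N₂ → ∃ C : ℝ, 1 ≤ C ∧
  ∀ (R δ w K : ℝ) (η : E m) (W : Pk m) (u : Z m), 1 ≤ R → 0 ≤ δ → 1 ≤ w →
  w ^ 2 ≤ Real.sqrt R → 1 ≤ K → ‖η‖ ≤ 4 → ‖ctr (sR R) W.1‖ ≤ 3 →
  K⁻¹ ≤ ‖ctr (sR R) W.1 - η‖ →
  ∫⁻ y, ENNReal.ofReal (ww N R δ w W y * wt N₂ (Lo η w⁻¹ (y - u))) ≤
    ENNReal.ofReal (C * K ^ 2 * w ^ (m + 1) * ww N R δ (w ^ 2) W u)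

/-- OM1: the sum of bumps is bounded and at least `c` near the points -/
def T_OM1 : Prop := ∀ (m N : ℕ), m + 3 ≤ N → ∃ C : ℝ, 1 ≤ C ∧ ∀ (w : ℝ) (Q : Finset (Z m)),
  0 < w → Continuous (Om N w Q) ∧ (∀ z, 0 ≤ Om N w Q z) ∧ (Sepw w Q → ∀ z, Om N w Q z ≤ C) ∧
  (∀ x ∈ Q, ∀ z, ‖z - x‖ ≤ 4 * w → 1 ≤ C * Om N w Q z) ∧
  (∀ z z', Om N w Q z ≤ (1 + ‖w⁻¹ • (z - z')‖) ^ N * Om N w Q z') ∧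
  ∫⁻ z, ENNReal.ofReal (Om N w Q z) ≤ ENNReal.ofReal (C * w ^ (m + 2) * Q.card)

/-- DEN: density of the points in the planks of the cap of radius `1/w` -/
def T_DEN : Prop := ∀ (m N N₁ N₂ : ℕ), 1 ≤ m → 2 ≤ N → 4 * N + m + 3 ≤ N₁ →
  4 * N + m + 3 ≤ N₂ → ∃ C : ℝ, 1 ≤ C ∧
  ∀ (R δ w K D D' : ℝ) (η : E m) (P : Finset (Pk m)) (Q : Finset (Z m)) (u : Z m), 1 ≤ R →
  0 ≤ δ → 1 ≤ w → w ^ 2 ≤ Real.sqrt R → 1 ≤ K → 0 < D → 0 < D' → ‖η‖ ≤ 4 →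
  (∀ W ∈ P, ‖ctr (sR R) W.1‖ ≤ 3 ∧ K⁻¹ ≤ ‖ctr (sR R) W.1 - η‖) → Sepw w Q →
  (∀ x ∈ Q, w * D ≤ Nd N R δ w P x ∧ Nd N R δ (w ^ 2) P x ≤ w ^ 2 * D') →
  ∫⁻ y, ENNReal.ofReal (Om N₁ w Q y * wt N₂ (Lo η w⁻¹ (y - u))) ≤
    ENNReal.ofReal (C * K ^ 2 * (D' / D) * w ^ (m + 2))

/-! ### energy at width `w` -/

/-- GRP: assignment of the small caps to the caps of radius `s` -/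
def T_GRP : Prop := ∀ (m : ℕ) (s : ℝ), 0 < s → ∃ g : E m → (Fin m → ℤ),
  ∀ x : E m, ‖x - ctr s (g x)‖ ≤ s

open scoped Classical in
/-- RDI: refined decoupling for wave packets, integral form -/
def T_RDI : Prop := ∀ (m N : ℕ) (β : E m → ℂ) (Ψ : Z m → ℂ) (ψ : Z m → ℝ) (δ P : ℝ), 1 ≤ m →
  IsPU β → IsPsi Ψ ψ → 0 < δ → δ ≤ 1 / 4 → m + 3 ≤ N → 2 ≤ P → m * (P - 2) < 4 →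
  ∃ C : ℝ, 1 ≤ C ∧ ∀ (κ R a : ℝ) (G : Z m → ℂ) (S : Finset (Pk m)),
  0 ≤ κ → κ ≤ 3 / 8 → 1 ≤ R → C ≤ R ^ δ → TC G → (∀ ζ, G ζ ≠ 0 → ζ ∈ Rg m κ R⁻¹) → 0 ≤ a →
  S.Nonempty → (∀ W ∈ S, W.1 ∈ Ks m (sR R) ∧ al N β R δ G W ≤ a) →
  ∫⁻ z, ‖∑ W ∈ S, Fp β ψ R δ G W z‖ₑ ^ P * ENNReal.ofReal (MS N R δ S z) ^ (1 - P / 2) ≤
    ENNReal.ofReal (C * R ^ (lo m * δ) * a ^ P * S.card * R ^ (((m : ℝ) + 2) / 2))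

open scoped Classical in
/-- L2A: sampling and local orthogonality at scale `w` -/
def T_L2A : Prop := ∀ (m N₁ : ℕ) (β : E m → ℂ) (Ψ : Z m → ℂ) (ψ : Z m → ℝ) (δ : ℝ), 1 ≤ m →
  IsPU β → IsPsi Ψ ψ → 0 < δ → δ ≤ 1 / 4 → m + 3 ≤ N₁ → ∃ C : ℝ, 1 ≤ C ∧
  ∀ (κ R w : ℝ) (G : Z m → ℂ) (P : Finset (Pk m)) (g : E m → (Fin m → ℤ))
  (X Q : Finset (Z m)), 0 ≤ κ → κ ≤ 3 / 8 → 1 ≤ R → C ≤ R ^ δ → TC G →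
  (∀ ζ, G ζ ≠ 0 → ζ ∈ Rg m κ R⁻¹) → 1 ≤ w → w ≤ Real.sqrt R →
  (∀ W ∈ P, W.1 ∈ Ks m (sR R) ∧ ‖ctr (sR R) W.1‖ ≤ 3) →
  (∀ x : E m, ‖x - ctr w⁻¹ (g x)‖ ≤ w⁻¹) → Sep X → (∀ z ∈ X, ∃ x ∈ Q, ‖z - x‖ ≤ 4 * w) →
  ∑ z ∈ X, ‖∑ W ∈ P, Fp β ψ R δ G W z‖ₑ ^ 2 ≤
    ENNReal.ofReal C * ∑ k ∈ P.image (fun W => g (ctr (sR R) W.1)),
      ∫⁻ z, ‖∑ W ∈ P.filter (fun W => g (ctr (sR R) W.1) = k), Fp β ψ R δ G W z‖ₑ ^ 2 *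
        ENNReal.ofReal (Om N₁ w Q z)

open scoped Classical in
/-- L2C: local constancy of the part of the cap of radius `1/w`, with the multiplicity -/
def T_L2C : Prop := ∀ (m N N₂ : ℕ) (β : E m → ℂ) (Ψ : Z m → ℂ) (ψ : Z m → ℝ) (δ P : ℝ),
  1 ≤ m → IsPU β → IsPsi Ψ ψ → 0 < δ → δ ≤ 1 / 4 → 2 ≤ P → P ≤ 6 → m + 3 ≤ N →
  m + 3 ≤ N₂ → ∃ C : ℝ, 1 ≤ C ∧
  ∀ (κ R w : ℝ) (η : E m) (G : Z m → ℂ) (S : Finset (Pk m)) (ω : Z m → ℝ≥0∞), 0 ≤ κ →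
  κ ≤ 3 / 8 → 1 ≤ R → C ≤ R ^ δ → TC G → (∀ ζ, G ζ ≠ 0 → ζ ∈ Rg m κ R⁻¹) → 1 ≤ w →
  w ≤ Real.sqrt R → ‖η‖ ≤ 4 → S.Nonempty →
  (∀ W ∈ S, W.1 ∈ Ks m (sR R) ∧ ‖ctr (sR R) W.1 - η‖ ≤ w⁻¹) → Measurable ω →
  ∫⁻ z, ‖∑ W ∈ S, Fp β ψ R δ G W z‖ₑ ^ P * ENNReal.ofReal (MS N R δ S z) ^ (1 - P / 2) *
      ω z ≤
    ENNReal.ofReal (C * w⁻¹ ^ (m + 2)) * ∫⁻ u, ‖∑ W ∈ S, Fp β ψ R δ G W u‖ₑ ^ P *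
      ENNReal.ofReal (MS N R δ S u) ^ (1 - P / 2) *
      ∫⁻ y, ω y * ENNReal.ofReal (wt N₂ (Lo η w⁻¹ (y - u)))

/-- L2D: the multiplicity near the points -/
def T_L2D : Prop := ∀ (m N NM N₁ : ℕ), 1 ≤ m → 2 * N + 2 ≤ NM → 2 * N + m + 3 ≤ N₁ →
  ∃ C : ℝ, 1 ≤ C ∧ ∀ (R δ w : ℝ) (P : Finset (Pk m)) (Q : Finset (Z m)), 1 ≤ R → 0 ≤ δ →
  R ^ δ ≤ w → w ≤ Real.sqrt R → (∀ W ∈ P, ‖ctr (sR R) W.1‖ ≤ 3) →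
  ∫⁻ z, ENNReal.ofReal (MS NM R δ P z * Om N₁ w Q z) ≤
    ENNReal.ofReal (C * R ^ δ * w ^ (m + 1) * ∑ x ∈ Q, Nd N R δ w P x)

open scoped Classical in
/-- L2W: energy at width `w` with density (`m = 2`); `X` is the set of the evaluation points,
`Q` a set of representatives at scale `w` -/
def T_L2W : Prop := ∀ (β : E 2 → ℂ) (Ψ : Z 2 → ℂ) (ψ : Z 2 → ℝ) (δ : ℝ) (N : ℕ), IsPU β →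
  IsPsi Ψ ψ → 0 < δ → δ ≤ 1 / 100 → 5 ≤ N → ∃ C : ℝ, 1 ≤ C ∧
  ∀ (κ R w K a H D₁ D₂ D₃ : ℝ) (G : Z 2 → ℂ) (P P' : Finset (Pk 2)) (X Q : Finset (Z 2)),
  0 ≤ κ → κ ≤ 3 / 8 → 1 ≤ R → C ≤ R ^ δ → R ^ δ ≤ w → w ^ 2 ≤ Real.sqrt R → 1 ≤ K →
  8 * K ≤ w → 0 < a → 0 < H → R ^ (-(10 : ℝ)) ≤ D₁ → R ^ (-(10 : ℝ)) ≤ D₂ → 0 < D₃ →
  D₃ ≤ R ^ (10 : ℝ) → TC G → (∀ ζ, G ζ ≠ 0 → ζ ∈ Rg 2 κ R⁻¹) →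
  (∀ W ∈ P, W.1 ∈ Ks 2 (sR R) ∧ ‖ctr (sR R) W.1‖ ≤ 3 ∧ al N β R δ G W ≤ 2 * a) →
  (P.card : ℝ) ≤ R ^ (10 : ℝ) → (∀ W ∈ P', ‖ctr (sR R) W.1‖ ≤ 3) →
  (∀ W ∈ P, ∀ W' ∈ P', K⁻¹ ≤ ‖ctr (sR R) W'.1 - ctr (sR R) W.1‖) → Sep X → Sepw w Q →
  (∀ z ∈ X, ∃ x ∈ Q, ‖z - x‖ ≤ 4 * w) → (∀ z ∈ X, H ≤ ‖∑ W ∈ P, Fp β ψ R δ G W z‖) →
  (∀ x ∈ Q, Nd N R δ w P x ≤ w * D₁ ∧ w * D₂ ≤ Nd N R δ w P' x ∧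
    Nd N R δ (w ^ 2) P' x ≤ w ^ 2 * D₃) →
  ((X.card : ℝ) * H ^ 2) ^ 2 ≤ C * K ^ 2 * R ^ (lo 2 * (8 * δ)) * (D₃ / D₂) * a ^ 4 * P.card *
    R ^ 2 * (Q.card * w ^ 4 * D₁)

open scoped Classical in
/-- RD4: refined decoupling at the exponent `4`, one family, `m = 2` -/
def T_RD4 : Prop := ∀ (L : ℕ) (β : E 2 → ℂ) (Ψ : Z 2 → ℂ) (ψ : Z 2 → ℝ) (δ : ℝ), IsPU β →
  IsPsi Ψ ψ → 0 < δ → δ ≤ 1 / 100 → ∀ N : ℕ, 5 ≤ N → ∃ C : ℝ, 1 ≤ C ∧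
  ∀ (κ R A a H M₁ : ℝ) (G : Z 2 → ℂ) (S : Finset (Pk 2)) (X : Finset (Z 2)), 0 ≤ κ →
  κ ≤ 3 / 8 → 1 ≤ R → C ≤ R ^ δ → 0 < A → Cls L κ R A G → 0 < a → 0 < H →
  R ^ (-(10 : ℝ)) ≤ M₁ → M₁ ≤ R ^ (10 : ℝ) → Sep X →
  (∀ W ∈ S, W.1 ∈ Ks 2 (sR R) ∧ al N β R δ G W ≤ 2 * a) →
  (∀ z ∈ X, H ≤ ‖∑ W ∈ S, Fp β ψ R δ G W z‖ ∧ Nd N R δ (R ^ δ) S z ≤ M₁) →
  (X.card : ℝ) * H ^ 4 ≤ C * R ^ (lo 2 * (4 * δ)) * M₁ * a ^ 4 * S.card * R ^ 2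

/-- ENP: energy of a sum of wave packets -/
def T_ENP : Prop := ∀ (m N : ℕ) (β : E m → ℂ) (Ψ : Z m → ℂ) (ψ : Z m → ℝ) (δ : ℝ), IsPU β →
  IsPsi Ψ ψ → 0 < δ → δ ≤ 1 / 4 → m + 3 ≤ N → ∃ C : ℝ, 1 ≤ C ∧
  ∀ (κ R : ℝ) (G : Z m → ℂ) (S : Finset (Pk m)), 0 ≤ κ → κ ≤ 3 / 8 → 1 ≤ R → C ≤ R ^ δ →
  TC G → (∀ ζ, G ζ ≠ 0 → ζ ∈ Rg m κ R⁻¹) → (∀ W ∈ S, W.1 ∈ Ks m (sR R)) →
  ∃ G' : Z m → ℂ, TC G' ∧ (∀ z, TF G' z = ∑ W ∈ S, Fp β ψ R δ G W z) ∧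
  (∀ ζ, G' ζ ≠ 0 → ζ ∈ Rg m (κ + C * R ^ (-δ)) R⁻¹ ∧
    ∃ W ∈ S, ‖ζ.1⁻¹ • ζ.2.1 - ctr (sR R) W.1‖ ≤ 2 * sR R) ∧
  ENNReal.ofReal (∫ ζ, ‖G' ζ‖ ^ 2) ≤ ENNReal.ofReal (C * R ^ (lo m * δ)) *
    ∑ W ∈ S, al2 N β R δ G W * ENNReal.ofReal (R ^ (((m : ℝ) + 2) / 2))

/-! ### counting in the cubes -/

open scoped Classical in
/-- NDU: weighted numbers and sharp numbers -/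
def T_NDU : Prop := ∀ (m : ℕ) (δ : ℝ), 0 < δ → ∃ N₀ : ℕ, ∀ N : ℕ, N₀ ≤ N → ∃ C : ℝ, 1 ≤ C ∧
  ∀ (R w : ℝ) (S : Finset (Pk m)) (z : Z m), 1 ≤ R → C ≤ R ^ δ → R ^ δ ≤ w →
  (∀ W ∈ S, W.1 ∈ Ks m (sR R)) → (S.card : ℝ) ≤ R ^ ((4 : ℝ) * (m + 2)) →
  Nd N R δ w S z ≤ ((S.filter (fun W => |(fc R δ W.1 z - zc W.2).1| ≤ w ∧
    ‖(fc R δ W.1 z - zc W.2).2‖ ≤ R ^ δ)).card : ℝ) + R⁻¹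

open scoped Classical in
/-- NDT: the planks at distance `w` of `z` and the tubes through the cube of a near point -/
def T_NDT : Prop := ∀ (m : ℕ) (δ : ℝ), 1 ≤ m → 0 < δ → δ ≤ 1 / 4 → ∃ C : ℝ, 1 ≤ C ∧
  ∀ (R w : ℝ) (z z' : Z m), 1 ≤ R → C ≤ R ^ δ → R ^ δ ≤ w → w ≤ Real.sqrt R →
  ‖z' - z‖ ≤ 2 →
  (∀ W : Pk m, |(fc R δ W.1 z' - zc W.2).1| ≤ w → ‖(fc R δ W.1 z' - zc W.2).2‖ ≤ R ^ δ →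
    Inc R δ (tb R W) (cb (Real.sqrt R) z)) ∧
  ∀ (S : Finset (Pk m)) (T : Pk m),
    ((S.filter (fun W => tb R W = T ∧ |(fc R δ W.1 z' - zc W.2).1| ≤ w)).card : ℝ) ≤ C * w

/-- SLB: `w`-separated points in the intersection of `m + 2` transversal slabs -/
def T_SLB : Prop := ∀ m : ℕ, ∃ C : ℝ, 1 ≤ C ∧ ∀ (c r w : ℝ) (η : Fin (m + 2) → E m)
  (α : Fin (m + 2) → ℝ) (Q : Finset (Z m)), 0 < c → c ≤ 1 → 0 < w → w ≤ r →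
  (∀ i, ‖η i‖ ≤ 3) → Ind c η → Sepw w Q → (∀ x ∈ Q, ∀ i, |(Lo (η i) 1 x).1 - α i| ≤ r) →
  (Q.card : ℝ) ≤ C * (r / (c * w)) ^ (m + 2)

open scoped Classical in
/-- LWW: four transversal families of planks of width `w` in the cubes, `m = 2` -/
def T_LWW : Prop := ∀ δ : ℝ, 0 < δ → δ ≤ 1 / 100 → ∃ N₀ : ℕ, ∀ N : ℕ, N₀ ≤ N → ∃ C : ℝ,
  1 ≤ C ∧ ∀ (R r w c : ℝ) (S : Fin 4 → Finset (Pk 2)) (b M D : Fin 4 → ℝ)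
  (QQ : Finset (Zi 2)) (l k : Fin 4 → ℕ) (Q : Finset (Z 2)) (p : Fin 4 → Z 2 → Z 2),
  1 ≤ R → C ≤ R ^ δ → R ^ δ ≤ w → w ≤ Real.sqrt R → 0 < c → c ≤ 1 →
  (∀ i, ∀ W ∈ S i, W.1 ∈ Ks 2 (sR R) ∧ ‖ctr (sR R) W.1‖ ≤ 3) →
  (∀ i, ((S i).card : ℝ) ≤ R ^ (16 : ℝ)) →
  (∀ W : Fin 4 → Pk 2, (∀ i, W i ∈ S i) → Ind c fun i => ctr (sR R) (W i).1) →
  (∀ i, 0 < b i ∧ 0 < M i ∧ R ^ (-(1 / 2) : ℝ) ≤ w * D i) →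
  (∀ i, ∀ W ∈ S i, (((S i).filter (fun W' => tb R W' = tb R W)).card : ℝ) ≤ 2 * b i) →
  Sepw w Q → (∀ z ∈ Q, ∀ i, ‖p i z - z‖ ≤ 2) →
  (∀ z ∈ Q, ∀ i, ((((S i).image (tb R)).filter (fun T => Inc R δ T (cb (Real.sqrt R) z) ∧
    Sh QQ R r δ (l i) (k i) T (bl R r (cb (Real.sqrt R) z)))).card : ℝ) ≤ 2 * M i) →
  (∀ z ∈ Q, ∀ i, w * D i ≤ Nd N R δ w (SB QQ R r δ (l i) (k i) (S i)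
    (bl R r (cb (Real.sqrt R) z))) (p i z)) →
  (Q.card : ℝ) * ∏ i, (w * D i) ≤ C * R ^ (lo 2 * δ) * c⁻¹ ^ 4 *
    (Q.image (cb (Real.sqrt R))).card * ∏ i, (M i * b i)

open scoped Classical in
/-- NDM: upper bounds of the weighted numbers in the two-ends case -/
def T_NDM : Prop := ∀ (m : ℕ) (δ : ℝ), 1 ≤ m → 0 < δ → δ ≤ 1 / 4 → ∃ N₀ : ℕ, ∀ N : ℕ, N₀ ≤ N →
  ∃ C : ℝ, 1 ≤ C ∧ ∀ (R r w b M : ℝ) (S : Finset (Pk m)) (QQ : Finset (Zi m)) (l k : ℕ)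
  (z z' : Z m), 1 ≤ R → C ≤ R ^ δ → R ^ δ ≤ w → w ≤ Real.sqrt R → 1 ≤ b → 1 ≤ 2 * M →
  (∀ W ∈ S, W.1 ∈ Ks m (sR R)) → (S.card : ℝ) ≤ R ^ ((4 : ℝ) * (m + 2)) → ‖z' - z‖ ≤ 2 →
  (∀ W ∈ S, ((S.filter (fun W' => tb R W' = tb R W)).card : ℝ) ≤ 2 * b) →
  (((S.image (tb R)).filter (fun T => Inc R δ T (cb (Real.sqrt R) z) ∧
    Sh QQ R r δ l k T (bl R r (cb (Real.sqrt R) z)))).card : ℝ) ≤ 2 * M →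
  Nd N R δ w (SB QQ R r δ l k S (bl R r (cb (Real.sqrt R) z))) z' ≤ C * w * M ∧
  Nd N R δ w (SB QQ R r δ l k S (bl R r (cb (Real.sqrt R) z))) z' ≤ C * M * b

/-- PGR: dyadic values of a real function -/
def T_PGR : Prop := ∀ (β : Type) (n : ℕ) (X : Finset β) (g : β → ℝ),
  (∀ z ∈ X, (2 : ℝ)⁻¹ ^ n ≤ g z ∧ g z ≤ 2 ^ n) →
  ∃ (X' : Finset β) (v : ℝ), X' ⊆ X ∧ 0 < v ∧ X.card ≤ (2 * n + 1) * X'.card ∧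
    ∀ z ∈ X', v ≤ g z ∧ g z ≤ 2 * v

end Pool.Agent.H88.B2
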